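import Mathlib

set_option autoImplicit false

namespace Pool.Agent.H.MP_4fee6f_ag

open MvPolynomial

section Basic

variable {σ : Type*} [Fintype σ] [DecidableEq σ] {R : Type*} [CommRing R]

/-- degree of an exponent vector in the variables other than `j` -/
def wt (j : σ) (w : σ →₀ ℕ) : ℕ := ∑ l ∈ Finset.univ.erase j, w l

lemma wt_add (j : σ) (u w : σ →₀ ℕ) : wt j (u + w) = wt j u + wt j w := by
  simp [wt, Finset.sum_add_distrib]

lemma wt_smul (j : σ) (q : ℕ) (w : σ →₀ ℕ) : wt j (q • w) = q * wt j w := by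
  simp [wt, Finset.mul_sum]

lemma degree_eq (w : σ →₀ ℕ) : w.degree = ∑ l, w l := Finsupp.degree_eq_sum w

lemma wt_le_degree (j : σ) (w : σ →₀ ℕ) : wt j w ≤ w.degree := by
  rw [degree_eq]
  exact Finset.sum_le_sum_of_subset (Finset.erase_subset _ _)

lemma wt_single (j l : σ) (h : l ≠ j) : wt j (Finsupp.single l 1) = 1 := by
  unfold wt
  rw [Finset.sum_eq_single l]
  · simp
  · intro b _ hb
    simp [Finsupp.single_apply, hb.symm]
  · intro hl
    exact absurd (Finset.mem_erase.2 ⟨h, Finset.mem_univ _⟩) hl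

variable (R) in
/-- polynomials all of whose monomials have weight at least `n` -/
def W (j : σ) (n : ℕ) : Ideal (MvPolynomial σ R) where
  carrier := {F | ∀ w ∈ F.support, n ≤ wt j w}
  zero_mem' := by simp
  add_mem' := by
    intro a b ha hb w hw
    rcases Finset.mem_union.1 (support_add hw) with h | h
    · exact ha w h
    · exact hb w h
  smul_mem' := by
    intro c a ha w hw
    rw [smul_eq_mul] at hw
    obtain ⟨u, _, v, hv, rfl⟩ := Finset.mem_add.1 (support_mul c a hw)
    rw [wt_add]
    exact (ha v hv).trans (Nat.le_add_left _ _)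

lemma mem_W {j : σ} {n : ℕ} {F : MvPolynomial σ R} :
    F ∈ W R j n ↔ ∀ w ∈ F.support, n ≤ wt j w := Iff.rfl

lemma W_mul {j : σ} {a b : ℕ} {F G : MvPolynomial σ R} (hF : F ∈ W R j a) (hG : G ∈ W R j b) :
    F * G ∈ W R j (a + b) := by
  intro w hw
  obtain ⟨u, hu, v, hv, rfl⟩ := Finset.mem_add.1 (support_mul F G hw)
  rw [wt_add]
  exact Nat.add_le_add (hF u hu) (hG v hv)

lemma W_anti {j : σ} {a b : ℕ} (h : a ≤ b) {F : MvPolynomial σ R} (hF : F ∈ W R j b) :
    F ∈ W R j a := fun w hw => h.trans (hF w hw)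

lemma W_zero (j : σ) (F : MvPolynomial σ R) : F ∈ W R j 0 := fun _ _ => Nat.zero_le _

lemma monomial_mem_W {j : σ} {n : ℕ} {w : σ →₀ ℕ} (h : n ≤ wt j w) (c : R) :
    monomial w c ∈ W R j n := by
  intro u hu
  have := support_monomial_subset hu
  rw [Finset.mem_singleton] at this
  rw [this]; exact h

lemma X_mem_W {j l : σ} (h : l ≠ j) : (X l : MvPolynomial σ R) ∈ W R j 1 :=
  monomial_mem_W (wt_single j l h).ge 1

lemma W_one_pow (j : σ) (n : ℕ) : W R j 1 ^ n = W R j n := by
  apply le_antisymm
  · induction n with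
    | zero => intro F _; exact W_zero j F
    | succ n ih =>
      rw [pow_succ, Ideal.mul_le]
      intro a ha b hb
      exact W_mul (ih ha) hb
  · have key : ∀ (n : ℕ) (w : σ →₀ ℕ) (c : R), n ≤ wt j w → monomial w c ∈ W R j 1 ^ n := by
      intro n
      induction n with
      | zero => intro w c _; simp
      | succ n ih =>
        intro w c h
        have : ∃ l ∈ Finset.univ.erase j, w l ≠ 0 := by
          by_contra hc
          push Not at hc
          have : wt j w = 0 := Finset.sum_eq_zero hc
          omega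
        obtain ⟨l, hl, hwl⟩ := this
        have hlj : l ≠ j := (Finset.mem_erase.1 hl).1
        have hw : w = (w - Finsupp.single l 1) + Finsupp.single l 1 := by
          rw [tsub_add_cancel_of_le]
          rw [Finsupp.single_le_iff]
          omega
        have h2 : n ≤ wt j (w - Finsupp.single l 1) := by
          rw [hw, wt_add, wt_single j l hlj] at h
          omega
        have h3 : (monomial w c : MvPolynomial σ R)
            = monomial (w - Finsupp.single l 1) c * X l := by
          rw [X, monomial_mul, mul_one, ← hw]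
        rw [h3, pow_succ]
        exact Ideal.mul_mem_mul (ih _ _ h2) (X_mem_W hlj)
    intro F hF
    rw [F.as_sum]
    exact Ideal.sum_mem _ fun w hw => key n w _ (hF w hw)

/-- the shear substitution -/
noncomputable def sh (j : σ) (t : σ → R) : MvPolynomial σ R →ₐ[R] MvPolynomial σ R :=
  aeval (fun l => X l + C (t l) * X j)

lemma sh_X (j : σ) (t : σ → R) (l : σ) : sh j t (X l) = X l + C (t l) * X j := by
  simp [sh]

lemma sh_C (j : σ) (t : σ → R) (c : R) : sh j t (C c) = C c := by
  simp [sh]

lemma sh_comp (j : σ) (t : σ → R) (ht : t j = 0) :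
    (sh j t).comp (sh j (-t)) = AlgHom.id R _ := by
  apply MvPolynomial.algHom_ext
  intro l
  simp only [AlgHom.comp_apply, sh_X, map_add, map_mul, sh_C, ht, Pi.neg_apply, map_neg,
    AlgHom.id_apply, map_zero]
  ring

lemma sh_sh_neg (j : σ) (t : σ → R) (ht : t j = 0) (F : MvPolynomial σ R) :
    sh j t (sh j (-t) F) = F := by
  have := congrArg (fun f => f F) (sh_comp j t ht)
  simpa using this

lemma sh_neg_sh (j : σ) (t : σ → R) (ht : t j = 0) (F : MvPolynomial σ R) :
    sh j (-t) (sh j t F) = F := by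
  have := sh_sh_neg j (-t) (by simp [ht]) F
  rwa [neg_neg] at this

lemma sh_homog (j : σ) (t : σ → R) {F : MvPolynomial σ R} {d : ℕ} (hF : F.IsHomogeneous d) :
    (sh j t F).IsHomogeneous d := by
  have := hF.aeval (fun l => (X l + C (t l) * X j : MvPolynomial σ R)) (n := 1)
    (fun l => (isHomogeneous_X R l).add (isHomogeneous_C_mul_X _ _))
  rwa [one_mul] at this

/-- the shear as an equivalence -/
noncomputable def shE (j : σ) (t : σ → R) (ht : t j = 0) :
    MvPolynomial σ R ≃+* MvPolynomial σ R where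
  toFun := sh j t
  invFun := sh j (-t)
  left_inv := sh_neg_sh j t ht
  right_inv := sh_sh_neg j t ht
  map_mul' := map_mul _
  map_add' := map_add _

/-- vanishing to order `n` at the point with affine coordinates `t` in the chart `j` -/
noncomputable def V (j : σ) (t : σ → R) (n : ℕ) : Ideal (MvPolynomial σ R) :=
  (W R j n).comap (sh j t)

lemma mem_V {j : σ} {t : σ → R} {n : ℕ} {F : MvPolynomial σ R} :
    F ∈ V j t n ↔ sh j t F ∈ W R j n := Iff.rfl

lemma V_mul {j : σ} {t : σ → R} {a b : ℕ} {F G : MvPolynomial σ R} (hF : F ∈ V j t a)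
    (hG : G ∈ V j t b) : F * G ∈ V j t (a + b) := by
  rw [mem_V, map_mul]; exact W_mul hF hG

lemma V_anti {j : σ} {t : σ → R} {a b : ℕ} (h : a ≤ b) {F : MvPolynomial σ R}
    (hF : F ∈ V j t b) : F ∈ V j t a := W_anti h hF

lemma V_zero (j : σ) (t : σ → R) (F : MvPolynomial σ R) : F ∈ V j t 0 := W_zero _ _

lemma V_pow {j : σ} {t : σ → R} {a : ℕ} {F : MvPolynomial σ R} (hF : F ∈ V j t a) (k : ℕ) :
    F ^ k ∈ V j t (k * a) := by
  induction k with
  | zero => simpa using V_zero j t 1
  | succ k ih =>
    rw [pow_succ, Nat.succ_mul]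
    exact V_mul ih hF

lemma V_one_pow (j : σ) (t : σ → R) (ht : t j = 0) (n : ℕ) : V j t 1 ^ n = V j t n := by
  have h : ∀ n, V j t n = (W R j n).map (shE j t ht).symm := by
    intro n
    rw [Ideal.map_symm]
    rfl
  rw [h, h n, ← Ideal.map_pow, W_one_pow]

lemma deriv_pow {S : Type*} [CommRing S] [Algebra R S] (D : Derivation R S S) (I : Ideal S)
    (n : ℕ) : ∀ x ∈ I ^ (n + 1), D x ∈ I ^ n := by
  induction n with
  | zero => intro x _; simp
  | succ n ih =>
    intro x hx
    rw [pow_succ] at hx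
    refine Submodule.mul_induction_on hx ?_ ?_
    · intro a ha b hb
      rw [Derivation.leibniz, smul_eq_mul, smul_eq_mul]
      refine Ideal.add_mem _ (Ideal.mul_mem_right _ _ ha) ?_
      rw [pow_succ, mul_comm b]
      exact Ideal.mul_mem_mul (ih a ha) hb
    · intro a b ha hb
      rw [map_add]
      exact Ideal.add_mem _ ha hb

lemma pderiv_mem_V {j : σ} {t : σ → R} (ht : t j = 0) {n : ℕ} {F : MvPolynomial σ R}
    (hF : F ∈ V j t n) (l : σ) : pderiv l F ∈ V j t (n - 1) := by
  rcases n with _ | n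
  · exact V_zero _ _ _
  · rw [← V_one_pow j t ht] at hF
    rw [Nat.add_sub_cancel, ← V_one_pow j t ht]
    exact deriv_pow _ _ _ _ hF

lemma homog_degree {F : MvPolynomial σ R} {d : ℕ} (hF : F.IsHomogeneous d) {w : σ →₀ ℕ}
    (hw : w ∈ F.support) : w.degree = d := by
  by_contra h
  exact (mem_support_iff.1 hw) (hF.coeff_eq_zero h)

lemma homog_of_degree {F : MvPolynomial σ R} {d : ℕ} (h : ∀ w ∈ F.support, w.degree = d) :
    F.IsHomogeneous d := by
  intro w hw
  have := h w (mem_support_iff.2 hw)
  rwa [Finsupp.degree_eq_weight_one] at this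

lemma le_of_mem_V {j : σ} {t : σ → R} (ht : t j = 0) {n d : ℕ} {F : MvPolynomial σ R}
    (h0 : F ≠ 0) (hd : F.IsHomogeneous d) (hF : F ∈ V j t n) : n ≤ d := by
  have h1 : sh j t F ≠ 0 := by
    intro h
    apply h0
    rw [← sh_neg_sh j t ht F, h, map_zero]
  obtain ⟨w, hw⟩ := support_nonempty.2 h1
  have := hF w hw
  rw [← homog_degree (sh_homog j t hd) hw]
  exact this.trans (wt_le_degree _ _)

lemma map_sh {S : Type*} [CommRing S] (φ : R →+* S) (j : σ) (t : σ → R) (F : MvPolynomial σ R) :
    map φ (sh j t F) = sh j (fun l => φ (t l)) (map φ F) := by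
  induction F using MvPolynomial.induction_on with
  | C a => simp [sh_C]
  | add p q hp hq => simp [hp, hq]
  | mul_X p l hp => simp [hp, sh_X]

lemma map_mem_V {S : Type*} [CommRing S] (φ : R →+* S) {j : σ} {t : σ → R} {n : ℕ}
    {F : MvPolynomial σ R} (hF : F ∈ V j t n) : map φ F ∈ V j (fun l => φ (t l)) n := by
  rw [mem_V, ← map_sh]
  intro w hw
  exact hF w (support_map_subset φ _ hw)

lemma mem_V_of_map {S : Type*} [CommRing S] (φ : R →+* S) (hφ : Function.Injective φ) {j : σ}
    {t : σ → R} {n : ℕ}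
    {F : MvPolynomial σ R} (hF : map φ F ∈ V j (fun l => φ (t l)) n) : F ∈ V j t n := by
  rw [mem_V, ← map_sh] at hF
  intro w hw
  apply hF w
  rwa [support_map_of_injective _ hφ]

lemma sh_component (j : σ) (t : σ → R) (F : MvPolynomial σ R) (d : ℕ) :
    sh j t (homogeneousComponent d F) = homogeneousComponent d (sh j t F) := by
  induction F using MvPolynomial.induction_on' with
  | monomial u a =>
    have h1 : (monomial u a : MvPolynomial σ R) ∈ homogeneousSubmodule σ R u.degree :=
      isHomogeneous_monomial a rfl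
    have h2 : sh j t (monomial u a) ∈ homogeneousSubmodule σ R u.degree := sh_homog j t h1
    rw [homogeneousComponent_of_mem h1, homogeneousComponent_of_mem h2]
    split_ifs <;> simp
  | add p q hp hq => simp [hp, hq]

lemma component_mem_V {j : σ} {t : σ → R} {n : ℕ} {F : MvPolynomial σ R} (hF : F ∈ V j t n)
    (d : ℕ) : homogeneousComponent d F ∈ V j t n := by
  rw [mem_V, sh_component]
  intro w hw
  rw [support_homogeneousComponent] at hw
  exact hF w (Finset.mem_filter.1 hw).1

end Basic

end Pool.Agent.H.MP_4fee6f_ag
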