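import Pool.Agent.H.MP_4fee6f_ag.A

set_option autoImplicit false

namespace Pool.Agent.H.MP_4fee6f_ag

open MvPolynomial

section Car

variable {σ : Type*} [Fintype σ] [DecidableEq σ] {R : Type*} [CommRing R]

/-- residues of the exponents modulo `q` -/
noncomputable def res (q : ℕ) (w : σ →₀ ℕ) : σ →₀ ℕ := w.mapRange (· % q) (Nat.zero_mod q)

/-- quotients of the exponents by `q` -/
noncomputable def quo (q : ℕ) (w : σ →₀ ℕ) : σ →₀ ℕ := w.mapRange (· / q) (Nat.zero_div q)

omit [Fintype σ] [DecidableEq σ] in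
lemma res_apply (q : ℕ) (w : σ →₀ ℕ) (l : σ) : res q w l = w l % q := by simp [res]

omit [Fintype σ] [DecidableEq σ] in
lemma quo_apply (q : ℕ) (w : σ →₀ ℕ) (l : σ) : quo q w l = w l / q := by simp [quo]

omit [Fintype σ] [DecidableEq σ] in
lemma res_add_quo (q : ℕ) (w : σ →₀ ℕ) : res q w + q • quo q w = w := by
  ext l
  simp [res_apply, quo_apply, Nat.mod_add_div]

omit [Fintype σ] [DecidableEq σ] in
lemma res_add_smul (q : ℕ) (w u : σ →₀ ℕ) : res q (w + q • u) = res q w := by
  ext l
  simp [res_apply]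

omit [Fintype σ] [DecidableEq σ] in
lemma quo_add_smul {q : ℕ} (hq : 0 < q) (w u : σ →₀ ℕ) : quo q (w + q • u) = quo q w + u := by
  ext l
  simp [quo_apply, Nat.add_mul_div_left _ _ hq]

omit [Fintype σ] [DecidableEq σ] in
lemma res_res (q : ℕ) (w : σ →₀ ℕ) : res q (res q w) = res q w := by
  ext l
  simp [res_apply]

omit [Fintype σ] [DecidableEq σ] in
lemma quo_res {q : ℕ} (hq : 0 < q) (w : σ →₀ ℕ) : quo q (res q w) = 0 := by
  ext l
  simp [res_apply, quo_apply, Nat.mod_lt _ hq]

omit [DecidableEq σ] in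
lemma degree_res_le (q : ℕ) (w : σ →₀ ℕ) : (res q w).degree ≤ w.degree := by
  rw [Finsupp.degree_eq_sum, Finsupp.degree_eq_sum]
  exact Finset.sum_le_sum fun l _ => by rw [res_apply]; exact Nat.mod_le _ _

lemma wt_res_le {q : ℕ} (hq : 0 < q) (j : σ) (w : σ →₀ ℕ) :
    wt j (res q w) ≤ (Fintype.card σ - 1) * (q - 1) := by
  unfold wt
  have : ∀ l ∈ Finset.univ.erase j, res q w l ≤ q - 1 := by
    intro l _
    rw [res_apply]
    have := Nat.mod_lt (w l) hq
    omega
  have h := Finset.sum_le_card_nsmul _ _ _ this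
  rwa [Finset.card_erase_of_mem (Finset.mem_univ j), Finset.card_univ, smul_eq_mul] at h

omit [Fintype σ] [DecidableEq σ] in
lemma monomial_split (q : ℕ) (w : σ →₀ ℕ) (c : R) :
    (monomial w c : MvPolynomial σ R) = monomial (res q w) c * expand q (monomial (quo q w) 1) := by
  rw [expand_monomial, monomial_mul, mul_one, res_add_quo]

/-- the component of a polynomial along the residue class `a` -/
noncomputable def car (q : ℕ) (a : σ →₀ ℕ) : MvPolynomial σ R →ₗ[R] MvPolynomial σ R :=
  (basisMonomials σ R).constr R (fun w => if res q w = a then monomial (quo q w) 1 else 0)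

omit [Fintype σ] in
lemma car_monomial (q : ℕ) (a w : σ →₀ ℕ) (c : R) :
    car q a (monomial w c) = if res q w = a then monomial (quo q w) c else 0 := by
  have h1 : (monomial w c : MvPolynomial σ R) = c • basisMonomials σ R w := by
    simp [smul_monomial]
  rw [h1, map_smul, car, Module.Basis.constr_basis]
  split_ifs <;> simp [smul_monomial]

omit [Fintype σ] in
lemma car_mul_expand {q : ℕ} (hq : 0 < q) (a : σ →₀ ℕ) (f h : MvPolynomial σ R) :
    car q a (f * expand q h) = car q a f * h := by
  induction h using MvPolynomial.induction_on' with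
  | add p r hp hr => simp [mul_add, hp, hr]
  | monomial u b =>
    induction f using MvPolynomial.induction_on' with
    | add p r hp hr => rw [add_mul, map_add, hp, hr, map_add, add_mul]
    | monomial w c =>
      rw [expand_monomial, monomial_mul, car_monomial, car_monomial, res_add_smul,
        quo_add_smul hq]
      split_ifs
      · rw [monomial_mul]
      · simp

omit [Fintype σ] in
lemma coeff_car {q : ℕ} (hq : 0 < q) (a : σ →₀ ℕ) (ha : res q a = a) (f : MvPolynomial σ R)
    (c : σ →₀ ℕ) : coeff c (car q a f) = coeff (a + q • c) f := by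
  induction f using MvPolynomial.induction_on' with
  | add p r hp hr => simp [hp, hr]
  | monomial w b =>
    rw [car_monomial, coeff_monomial]
    by_cases h : w = a + q • c
    · have h1 : res q w = a := by rw [h, res_add_smul, ha]
      have h2 : quo q w = c := by
        rw [h, quo_add_smul hq, ← ha, quo_res hq, zero_add]
      rw [if_pos h1, if_pos h, coeff_monomial, if_pos h2]
    · rw [if_neg h]
      split_ifs with h1
      · rw [coeff_monomial, if_neg]
        intro h2
        apply h
        rw [← h1, ← h2, res_add_quo]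
      · simp

/-- if the shear commutes with `expand q`, residue degrees do not grow -/
lemma res_degree_sh {q : ℕ} (j : σ) (t : σ → R)
    (hc : ∀ h : MvPolynomial σ R, sh j t (expand q h) = expand q (sh j t h))
    (F : MvPolynomial σ R) (s : ℕ) (hs : ∀ w ∈ F.support, (res q w).degree ≤ s) :
    ∀ u ∈ (sh j t F).support, (res q u).degree ≤ s := by
  intro u hu
  rw [F.as_sum, map_sum] at hu
  obtain ⟨w, hw, hu⟩ := Finset.mem_biUnion.1 (support_sum hu)
  rw [monomial_split q, map_mul, hc] at hu
  obtain ⟨u1, hu1, u2, hu2, rfl⟩ := Finset.mem_add.1 (support_mul _ _ hu)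
  obtain ⟨v, _, rfl⟩ := Finset.mem_image.1 (support_expand_subset _ hu2)
  rw [res_add_smul]
  have h1 : u1.degree = (res q w).degree :=
    homog_degree (sh_homog j t (isHomogeneous_monomial _ rfl)) hu1
  exact (degree_res_le q u1).trans (h1 ▸ hs w hw)

lemma car_mem_V {q : ℕ} (hq : 0 < q) (j : σ) (t : σ → R) (ht : t j = 0)
    (hc : ∀ h : MvPolynomial σ R, sh j (-t) (expand q h) = expand q (sh j (-t) h))
    (F : MvPolynomial σ R) (n : ℕ) (hn : ∀ u ∈ (sh j t F).support, n ≤ wt j (quo q u))
    (a : σ →₀ ℕ) : car q a F ∈ V j t n := by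
  rw [← sh_neg_sh j t ht F, (sh j t F).as_sum, map_sum, map_sum]
  refine Ideal.sum_mem _ fun u hu => ?_
  rw [monomial_split q, map_mul, hc, car_mul_expand hq]
  refine Ideal.mul_mem_left _ _ ?_
  rw [mem_V, sh_sh_neg j t ht]
  exact monomial_mem_W (hn u hu) 1

end Car

section Descent

variable {σ : Type*} [Fintype σ] [DecidableEq σ] {k : Type*} [Field k]

lemma exists_pth_root (p : ℕ) [Fact p.Prime] [CharP k p] [PerfectRing k p]
    (G : MvPolynomial σ k) (h : ∀ l, pderiv l G = 0) : ∃ H : MvPolynomial σ k, H ^ p = G := by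
  have hp : 0 < p := (Fact.out : p.Prime).pos
  have hdiv : ∀ w ∈ G.support, res p w = 0 := by
    intro w hw
    ext l
    rw [res_apply]
    rcases Nat.eq_zero_or_pos (w l) with h0 | h0
    · simp [h0]
    · have h1 := congrArg (coeff (w - Finsupp.single l 1)) (h l)
      have hw' : w - Finsupp.single l 1 + Finsupp.single l 1 = w := by
        rw [tsub_add_cancel_of_le]
        rw [Finsupp.single_le_iff]
        omega
      rw [coeff_pderiv, hw', coeff_zero] at h1
      have h2 := (mul_eq_zero.1 h1).resolve_left (mem_support_iff.1 hw)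
      have h3 : ((w l : ℕ) : k) = 0 := by
        have : w l = (w - Finsupp.single l 1 : σ →₀ ℕ) l + 1 := by
          simp; omega
        rw [this]; push_cast; exact h2
      rw [CharP.cast_eq_zero_iff k p] at h3
      simpa using Nat.mod_eq_zero_of_dvd h3
  refine ⟨∑ w ∈ G.support, monomial (quo p w) ((frobeniusEquiv k p).symm (coeff w G)), ?_⟩
  rw [← map_frobenius_expand p, map_sum, map_sum]
  conv_rhs => rw [G.as_sum]
  refine Finset.sum_congr rfl fun w hw => ?_
  rw [expand_monomial, map_monomial]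
  have h1 : p • quo p w = w := by
    have := res_add_quo p w
    rwa [hdiv w hw, zero_add] at this
  rw [h1]
  congr 1
  exact (frobeniusEquiv k p).apply_symm_apply _

lemma support_pow_char (p : ℕ) [Fact p.Prime] [CharP k p] (H : MvPolynomial σ k)
    {w : σ →₀ ℕ} (hw : w ∈ H.support) : p • w ∈ (H ^ p).support := by
  have hp : p ≠ 0 := (Fact.out : p.Prime).ne_zero
  rw [← map_frobenius_expand p, support_map_of_injective _ (frobenius k p).injective,
    support_expand _ hp]
  exact Finset.mem_image_of_mem _ hw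

lemma descent_one (p : ℕ) [Fact p.Prime] [CharP k p] [PerfectRing k p] {ι : Type*}
    (j : ι → σ) (t : ι → σ → k) (ht : ∀ i, t i (j i) = 0) (e : ℕ) :
    ∀ (G : MvPolynomial σ k) (n : ι → ℕ), G ≠ 0 → G.IsHomogeneous e → 1 ≤ e →
      (∀ i, G ∈ V (j i) (t i) (n i)) →
      ∃ G' : MvPolynomial σ k, G' ≠ 0 ∧ G'.IsHomogeneous (e - 1) ∧
        ∀ i, G' ∈ V (j i) (t i) (n i - 1) := by
  induction e using Nat.strong_induction_on with
  | _ e ih =>
  intro G n h0 hG he hV
  by_cases hd : ∃ l, pderiv l G ≠ 0
  · obtain ⟨l, hl⟩ := hd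
    exact ⟨pderiv l G, hl, hG.pderiv, fun i => pderiv_mem_V (ht i) (hV i) l⟩
  · push Not at hd
    obtain ⟨H, rfl⟩ := exists_pth_root p G hd
    have hp2 : 2 ≤ p := (Fact.out : p.Prime).two_le
    have hH0 : H ≠ 0 := by
      rintro rfl
      exact h0 (zero_pow (by omega))
    obtain ⟨w0, hw0⟩ := support_nonempty.2 hH0
    have hdeg : ∀ w ∈ H.support, p * w.degree = e := by
      intro w hw
      have := homog_degree hG (support_pow_char p H hw)
      rwa [map_nsmul, smul_eq_mul] at this
    set e' := w0.degree with he'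
    have hpe : p * e' = e := hdeg w0 hw0
    have hH : H.IsHomogeneous e' := by
      apply homog_of_degree
      intro w hw
      have := hdeg w hw
      rw [← hpe] at this
      exact Nat.eq_of_mul_eq_mul_left (by omega) this
    have he1 : 1 ≤ e' := by
      rcases Nat.eq_zero_or_pos e' with h | h
      · rw [h] at hpe; omega
      · exact h
    have hlt : e' < e := by rw [← hpe]; nlinarith
    have hHV : ∀ i, H ∈ V (j i) (t i) ((n i + p - 1) / p) := by
      intro i w hw
      have h1 := hV i
      rw [mem_V, map_pow] at h1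
      have h2 := h1 _ (support_pow_char p _ hw)
      rw [wt_smul] at h2
      apply Nat.le_of_lt_succ
      rw [Nat.div_lt_iff_lt_mul (by omega)]
      have : (wt (j i) w).succ * p = p * wt (j i) w + p := by rw [Nat.succ_mul, mul_comm]
      omega
    obtain ⟨H', h0', hH', hV'⟩ := ih e' hlt H _ hH0 hH he1 hHV
    refine ⟨H ^ (p - 1) * H', mul_ne_zero (pow_ne_zero _ hH0) h0', ?_, fun i => ?_⟩
    · have := (hH.pow (p - 1)).mul hH'
      convert this using 1
      obtain ⟨p', rfl⟩ : ∃ p', p = p' + 1 := ⟨p - 1, by omega⟩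
      rw [← hpe, Nat.add_sub_cancel]
      have : (p' + 1) * e' = e' * p' + e' := by ring
      omega
    · refine V_anti ?_ (V_mul (V_pow (hHV i) (p - 1)) (hV' i))
      set c := (n i + p - 1) / p with hc
      have h1 : n i ≤ p * c := by
        have := Nat.lt_mul_div_succ (n i + p - 1) (b := p) (by omega)
        rw [← hc, Nat.mul_succ] at this
        omega
      obtain ⟨p', rfl⟩ : ∃ p', p = p' + 1 := ⟨p - 1, by omega⟩
      rw [Nat.add_sub_cancel]
      have : (p' + 1) * c = p' * c + c := by ring
      omega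

lemma descent (p : ℕ) [Fact p.Prime] [CharP k p] [PerfectRing k p] {ι : Type*}
    (j : ι → σ) (t : ι → σ → k) (ht : ∀ i, t i (j i) = 0) (ρ : ℕ) :
    ∀ (e : ℕ) (G : MvPolynomial σ k) (n : ι → ℕ), G ≠ 0 → G.IsHomogeneous e → ρ ≤ e →
      (∀ i, G ∈ V (j i) (t i) (n i)) →
      ∃ G' : MvPolynomial σ k, G' ≠ 0 ∧ G'.IsHomogeneous (e - ρ) ∧
        ∀ i, G' ∈ V (j i) (t i) (n i - ρ) := by
  induction ρ with
  | zero => intro e G n h0 hG _ hV; exact ⟨G, h0, hG, hV⟩
  | succ ρ ih =>
    intro e G n h0 hG he hV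
    obtain ⟨G1, h1, hG1, hV1⟩ := ih e G n h0 hG (by omega) hV
    obtain ⟨G2, h2, hG2, hV2⟩ := descent_one p j t ht (e - ρ) G1 _ h1 hG1 (by omega) hV1
    exact ⟨G2, h2, by simpa [Nat.sub_sub] using hG2, fun i => by simpa [Nat.sub_sub] using hV2 i⟩

end Descent

end Pool.Agent.H.MP_4fee6f_ag
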