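import Pool.Agent.H.MP_4fee6f_ag.B

set_option autoImplicit false

namespace Pool.Agent.H.MP_4fee6f_ag

open MvPolynomial

section Fin

variable {σ : Type*} [Fintype σ] [DecidableEq σ] {k : Type*} [Field k]

lemma sh_expand (p n : ℕ) [Fact p.Prime] [CharP k p] (j : σ) (t : σ → k)
    (ht : ∀ l, t l ^ p ^ n = t l) (h : MvPolynomial σ k) :
    sh j t (expand (p ^ n) h) = expand (p ^ n) (sh j t h) := by
  have : (sh j t).comp (expand (p ^ n)) = (expand (p ^ n)).comp (sh j t) := by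
    apply MvPolynomial.algHom_ext
    intro l
    simp only [AlgHom.comp_apply, expand_X, map_pow, sh_X, map_add, map_mul, expand_C]
    rw [add_pow_char_pow, mul_pow, ← C_pow, ht]
  exact congrArg (fun f => f h) this

/-- one Frobenius step -/
lemma frob_step (p n : ℕ) [Fact p.Prime] [CharP k p] [PerfectRing k p]
    (hq : ∀ x : k, x ^ p ^ n = x) {ι : Type*}
    (j : ι → σ) (t : ι → σ → k) (ht : ∀ i, t i (j i) = 0) (μ : ι → ℕ) (i0 : ι) (hi0 : 1 ≤ μ i0)
    (M : ℕ) (hM : Fintype.card σ = M + 2) (m D : ℕ) (hm : 1 ≤ m)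
    (F : MvPolynomial σ k) (h0 : F ≠ 0) (hF : F.IsHomogeneous D)
    (hV : ∀ i, F ∈ V (j i) (t i) (p ^ n * (m + M) * μ i)) :
    ∃ (e : ℕ) (G : MvPolynomial σ k), G ≠ 0 ∧ G.IsHomogeneous e ∧
      (∀ i, G ∈ V (j i) (t i) (m * μ i)) ∧ p ^ n * (e + M) ≤ D := by
  set q := p ^ n with hqdef
  have hq0 : 0 < q := pow_pos (Fact.out : p.Prime).pos n
  obtain ⟨w0, hw0, hmax⟩ := Finset.exists_max_image F.support (fun w => (res q w).degree)
    (support_nonempty.2 h0)
  set s := (res q w0).degree with hs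
  have hex : ∃ ρ, q * M ≤ s + q * ρ := ⟨M, Nat.le_add_left _ _⟩
  set ρ := Nat.find hex with hρ
  have hρ1 : q * M ≤ s + q * ρ := Nat.find_spec hex
  have hρ2 : ∀ ρ' < ρ, s + q * ρ' < q * M := fun ρ' h => not_le.1 (Nat.find_min hex h)
  set G0 := car q (res q w0) F with hG0
  have hcoeff : ∀ c, coeff c G0 = coeff (res q w0 + q • c) F :=
    fun c => coeff_car hq0 _ (res_res q w0) F c
  have hG0ne : G0 ≠ 0 := by
    intro h
    have := hcoeff (quo q w0)
    rw [h, res_add_quo, coeff_zero] at this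
    exact (mem_support_iff.1 hw0) this.symm
  set e' := (quo q w0).degree with he'
  have hD : s + q * e' = D := by
    have := homog_degree hF hw0
    rw [← res_add_quo q w0, map_add, map_nsmul, smul_eq_mul] at this
    exact this
  have hG0h : G0.IsHomogeneous e' := by
    apply homog_of_degree
    intro c hc
    rw [mem_support_iff, hcoeff, ← mem_support_iff] at hc
    have := homog_degree hF hc
    rw [map_add, map_nsmul, smul_eq_mul, ← hs, ← hD] at this
    exact Nat.eq_of_mul_eq_mul_left hq0 (Nat.add_left_cancel this)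
  have hG0V : ∀ i, G0 ∈ V (j i) (t i) (if μ i = 0 then 0 else m * μ i + ρ) := by
    intro i
    split_ifs with hμ
    · exact V_zero _ _ _
    apply car_mem_V hq0 (j i) (t i) (ht i) (sh_expand p n _ _ (fun l => hq _))
    intro u hu
    have h1 : (res q u).degree ≤ s :=
      res_degree_sh (j i) (t i) (sh_expand p n _ _ (fun l => hq _)) F s hmax u hu
    have h2 := hV i u hu
    rw [← res_add_quo q u, wt_add, wt_smul] at h2
    have h3 : wt (j i) (res q u) ≤ s := (wt_le_degree _ _).trans h1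
    have h4 : wt (j i) (res q u) ≤ (M + 1) * (q - 1) := by
      have := wt_res_le hq0 (j i) u
      rwa [hM] at this
    set x := wt (j i) (quo q u)
    set y := wt (j i) (res q u)
    have h5 : q * (m * μ i) + q * M ≤ q * (m + M) * μ i := by
      have : 1 ≤ μ i := Nat.pos_of_ne_zero hμ
      have h6 : q * M * 1 ≤ q * M * μ i := Nat.mul_le_mul_left _ this
      nlinarith
    by_contra hlt
    have hlt' : x + 1 ≤ m * μ i + ρ := by omega
    have h7 : q * (x + 1) ≤ q * (m * μ i + ρ) := Nat.mul_le_mul_left _ hlt'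
    rcases Nat.eq_zero_or_pos ρ with hρ0 | hρ0
    · rw [hρ0] at h7
      obtain ⟨q', hq'⟩ : ∃ q', q = q' + 1 := ⟨q - 1, by omega⟩
      rw [hq', Nat.add_sub_cancel] at h4
      rw [hq'] at h2 h5 h7
      nlinarith
    · obtain ⟨ρ', hρ'⟩ : ∃ ρ', ρ = ρ' + 1 := ⟨ρ - 1, by omega⟩
      have h8 := hρ2 ρ' (by omega)
      rw [hρ'] at h7
      nlinarith
  have hρe : ρ ≤ e' := by
    have := le_of_mem_V (ht i0) hG0ne hG0h (hG0V i0)
    rw [if_neg (by omega)] at this
    omega
  obtain ⟨G, hG1, hG2, hG3⟩ := descent p j t ht ρ e' G0 _ hG0ne hG0h hρe hG0V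
  refine ⟨e' - ρ, G, hG1, hG2, fun i => V_anti ?_ (hG3 i), ?_⟩
  · split_ifs with hμ
    · simp [hμ]
    · omega
  · obtain ⟨e, he⟩ : ∃ e, e' = e + ρ := ⟨e' - ρ, by omega⟩
    rw [he, Nat.add_sub_cancel, ← hD, he]
    nlinarith

/-- the main inequality over a finite field -/
theorem core_fin [Finite k] {ι : Type*}
    (j : ι → σ) (t : ι → σ → k) (ht : ∀ i, t i (j i) = 0) (μ : ι → ℕ) (i0 : ι) (hi0 : 1 ≤ μ i0)
    (M : ℕ) (hM : Fintype.card σ = M + 2) (m r d : ℕ) (hm : 1 ≤ m) (hr : 1 ≤ r)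
    (F : MvPolynomial σ k) (h0 : F ≠ 0) (hF : F.IsHomogeneous d)
    (hV : ∀ i, F ∈ V (j i) (t i) (r * μ i)) :
    ∃ (e : ℕ) (G : MvPolynomial σ k), G ≠ 0 ∧ G.IsHomogeneous e ∧
      (∀ i, G ∈ V (j i) (t i) (m * μ i)) ∧ r * (e + M) ≤ d * (m + M) := by
  haveI := Fintype.ofFinite k
  obtain ⟨p, hp⟩ := CharP.exists k
  obtain ⟨n0, hpp, hcard⟩ := FiniteField.card k p
  haveI : Fact p.Prime := ⟨hpp⟩
  haveI : PerfectRing k p := PerfectField.toPerfectRing p
  have hq : ∀ x : k, x ^ p ^ (n0 * (r * d)) = x := by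
    intro x
    rw [pow_mul, ← hcard]
    exact FiniteField.pow_card_pow _ x
  set n : ℕ := n0 * (r * d) with hn
  set q := p ^ n with hqdef
  have hqbig : r * d < q := by
    have h1 : r * d ≤ n := Nat.le_mul_of_pos_left _ n0.pos
    exact lt_of_le_of_lt h1 (Nat.lt_pow_self hpp.one_lt)
  set j0 := q * (m + M) / r + 1 with hj0
  have hj1 : q * (m + M) ≤ j0 * r := by
    have := Nat.lt_mul_div_succ (q * (m + M)) (b := r) (by omega)
    rw [← hj0] at this
    rw [mul_comm j0]; exact this.le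
  have hj2 : j0 * r ≤ q * (m + M) + r := by
    have := Nat.div_mul_le_self (q * (m + M)) r
    rw [hj0, add_mul, one_mul]
    omega
  obtain ⟨e, G, h1, h2, h3, h4⟩ := frob_step p n hq j t ht μ i0 hi0 M hM m (d * j0) hm (F ^ j0)
    (pow_ne_zero _ h0) (hF.pow j0) (fun i => V_anti (by
      rw [← mul_assoc]; exact Nat.mul_le_mul_right _ hj1) (V_pow (hV i) j0))
  refine ⟨e, G, h1, h2, h3, ?_⟩
  rw [← hqdef] at h4
  by_contra hlt
  have h5 : d * (m + M) + 1 ≤ r * (e + M) := by omega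
  have h6 : q * (d * (m + M) + 1) ≤ q * (r * (e + M)) := Nat.mul_le_mul_left _ h5
  have h7 : r * (q * (e + M)) ≤ r * (d * j0) := Nat.mul_le_mul_left _ h4
  have h8 : d * (j0 * r) ≤ d * (q * (m + M) + r) := Nat.mul_le_mul_left _ hj2
  nlinarith

end Fin

end Pool.Agent.H.MP_4fee6f_ag
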