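import Pool.Agent.H.MP_4fee6f_ag.C

set_option autoImplicit false

namespace Pool.Agent.H.MP_4fee6f_ag

open MvPolynomial

lemma jacobson_int : IsJacobsonRing ℤ := by
  rw [isJacobsonRing_iff_prime_eq]
  intro P hP
  by_cases h : P = ⊥
  · subst h
    rw [eq_bot_iff]
    intro x hx
    rw [Ideal.mem_bot]
    by_contra hx0
    obtain ⟨p, hp1, hp2⟩ := Nat.exists_infinite_primes (x.natAbs + 1)
    have hpr : Prime (p : ℤ) := Nat.prime_iff_prime_int.1 hp2
    have hmax : (Ideal.span {(p : ℤ)}).IsMaximal :=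
      PrincipalIdealRing.isMaximal_of_irreducible hpr.irreducible
    have := Ideal.mem_sInf.1 hx (show Ideal.span {(p : ℤ)} ∈
      {J : Ideal ℤ | ⊥ ≤ J ∧ J.IsMaximal} from ⟨bot_le, hmax⟩)
    rw [Ideal.mem_span_singleton, Int.natCast_dvd] at this
    have := Nat.le_of_dvd (Int.natAbs_pos.2 hx0) this
    omega
  · have := hP.isMaximal h
    exact Ideal.jacobson_eq_self_of_isMaximal

lemma finite_of_field_finiteType (k : Type*) [Field k] [Algebra.FiniteType ℤ k] : Finite k := by
  haveI := jacobson_int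
  haveI : Module.Finite ℤ k := finite_of_finite_type_of_isJacobsonRing ℤ k
  obtain ⟨p, hp⟩ := CharP.exists k
  rcases CharP.char_is_prime_or_zero k p with h | h
  · apply Module.finite_of_fg_torsion k
    intro x
    refine ⟨⟨(p : ℤ), mem_nonZeroDivisors_of_ne_zero (by exact_mod_cast h.ne_zero)⟩, ?_⟩
    simp [Submonoid.smul_def]
  · subst h
    haveI := CharP.charP_to_charZero k
    exfalso
    apply Int.not_isField
    have hinj : Function.Injective (algebraMap ℤ k) := by
      intro a b hab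
      simpa using hab
    exact (Algebra.IsIntegral.isField_iff_isField hinj).2 (Field.toIsField k)

/-- finitely many elements of a field lie in a subring that maps to a finite field -/
lemma exists_finite_quot {K : Type*} [Field K] (S : Set K) (hS : S.Finite) :
    ∃ (A : Subalgebra ℤ K) (I : Ideal A), I.IsMaximal ∧ Finite (A ⧸ I) ∧ S ⊆ A := by
  let A := Algebra.adjoin ℤ S
  haveI : Algebra.FiniteType ℤ A := by
    rw [← Subalgebra.fg_iff_finiteType]
    exact Subalgebra.fg_def.2 ⟨S, hS, rfl⟩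
  obtain ⟨I, hI⟩ := Ideal.exists_maximal A
  refine ⟨A, I, hI, ?_, Algebra.subset_adjoin⟩
  letI := Ideal.Quotient.field I
  have h : Algebra.FiniteType ℤ (A ⧸ I) :=
    Algebra.FiniteType.of_surjective (Ideal.Quotient.mkₐ ℤ I) (Ideal.Quotient.mkₐ_surjective ℤ I)
  exact @finite_of_field_finiteType _ _ (by
    convert h
    · rfl
    · exact Subsingleton.elim _ _)

section Transfer

variable {σ : Type*} [Fintype σ] [DecidableEq σ]

/-- exponent vectors of degree `e` -/
noncomputable def expo (σ : Type*) [Fintype σ] [DecidableEq σ] (e : ℕ) : Finset (σ →₀ ℕ) :=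
  Finset.finsuppAntidiag Finset.univ e

lemma mem_expo {e : ℕ} {w : σ →₀ ℕ} : w ∈ expo σ e ↔ w.degree = e := by
  simp [expo, Finset.mem_finsuppAntidiag, Finsupp.degree_eq_sum]

variable {ι : Type*} [Fintype ι]

/-- the matrix of the linear conditions on forms of degree `e` -/
noncomputable def condM {R : Type*} [CommRing R] (j : ι → σ) (t : ι → σ → R) (n : ι → ℕ)
    (e : ℕ) : Matrix (ι × expo σ e) (expo σ e) R :=
  fun iw v => if wt (j iw.1) iw.2 < n iw.1 then
    coeff iw.2 (sh (j iw.1) (t iw.1) (monomial v 1)) else 0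

/-- the form with a given coefficient vector -/
noncomputable def poly {R : Type*} [CommRing R] (e : ℕ) (c : expo σ e → R) : MvPolynomial σ R :=
  ∑ v : expo σ e, monomial (v : σ →₀ ℕ) (c v)

lemma poly_homog {R : Type*} [CommRing R] (e : ℕ) (c : expo σ e → R) :
    (poly e c).IsHomogeneous e :=
  IsHomogeneous.sum _ _ _ fun v _ => isHomogeneous_monomial _ (mem_expo.1 v.2)

lemma coeff_poly {R : Type*} [CommRing R] (e : ℕ) (c : expo σ e → R) (v : expo σ e) :
    coeff (v : σ →₀ ℕ) (poly e c) = c v := by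
  rw [poly, coeff_sum, Finset.sum_eq_single v]
  · simp
  · intro b _ hb
    rw [coeff_monomial, if_neg]
    intro h
    exact hb (Subtype.ext h)
  · simp

lemma poly_coeff {R : Type*} [CommRing R] (e : ℕ) (G : MvPolynomial σ R)
    (hG : G.IsHomogeneous e) : poly e (fun v => coeff (v : σ →₀ ℕ) G) = G := by
  ext w
  by_cases hw : w.degree = e
  · exact coeff_poly e (fun v => coeff (v : σ →₀ ℕ) G) ⟨w, mem_expo.2 hw⟩
  · rw [(poly_homog e _).coeff_eq_zero hw, hG.coeff_eq_zero hw]

omit [Fintype ι] in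
lemma condM_mulVec {R : Type*} [CommRing R] (j : ι → σ) (t : ι → σ → R) (n : ι → ℕ)
    (e : ℕ) (c : expo σ e → R) (iw : ι × expo σ e) :
    (condM j t n e).mulVec c iw = if wt (j iw.1) iw.2 < n iw.1 then
      coeff iw.2 (sh (j iw.1) (t iw.1) (poly e c)) else 0 := by
  simp only [Matrix.mulVec, dotProduct, condM]
  split_ifs
  · rw [poly, map_sum, coeff_sum]
    refine Finset.sum_congr rfl fun v _ => ?_
    have : (monomial (v : σ →₀ ℕ) (c v) : MvPolynomial σ R) = c v • monomial (v : σ →₀ ℕ) 1 := by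
      simp [smul_monomial]
    rw [this, map_smul, coeff_smul, smul_eq_mul, mul_comm]
  · simp

omit [Fintype ι] in
lemma condM_mulVec_eq_zero {R : Type*} [CommRing R] (j : ι → σ) (t : ι → σ → R) (n : ι → ℕ)
    (e : ℕ) (c : expo σ e → R) :
    (condM j t n e).mulVec c = 0 ↔ ∀ i, poly e c ∈ V (j i) (t i) (n i) := by
  constructor
  · intro h i w hw
    have hd : w.degree = e := homog_degree (sh_homog _ _ (poly_homog e c)) hw
    have := congrFun h (i, ⟨w, mem_expo.2 hd⟩)
    rw [condM_mulVec] at this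
    by_contra hlt
    rw [if_pos (not_le.1 hlt)] at this
    exact (mem_support_iff.1 hw) this
  · intro h
    funext iw
    rw [condM_mulVec]
    split_ifs with hlt
    · by_contra hne
      have := h iw.1 iw.2 (mem_support_iff.2 hne)
      omega
    · rfl

omit [Fintype ι] in
lemma condM_map {R S : Type*} [CommRing R] [CommRing S] (φ : R →+* S) (j : ι → σ)
    (t : ι → σ → R) (n : ι → ℕ) (e : ℕ) :
    (condM j t n e).map φ = condM j (fun i l => φ (t i l)) n e := by
  ext iw v
  simp only [Matrix.map_apply, condM]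
  split_ifs
  · rw [← coeff_map, map_sh, map_monomial, map_one]
  · simp

/-- the main inequality over an arbitrary field -/
theorem core {K : Type*} [Field K]
    (j : ι → σ) (t : ι → σ → K) (ht : ∀ i, t i (j i) = 0) (μ : ι → ℕ) (i0 : ι) (hi0 : 1 ≤ μ i0)
    (M : ℕ) (hM : Fintype.card σ = M + 2) (m r d : ℕ) (hm : 1 ≤ m) (hr : 1 ≤ r)
    (F : MvPolynomial σ K) (h0 : F ≠ 0) (hF : F.IsHomogeneous d)
    (hV : ∀ i, F ∈ V (j i) (t i) (r * μ i)) :
    ∃ (e : ℕ) (G : MvPolynomial σ K), G ≠ 0 ∧ G.IsHomogeneous e ∧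
      (∀ i, G ∈ V (j i) (t i) (m * μ i)) ∧ r * (e + M) ≤ d * (m + M) := by
  classical
  have hrd : r ≤ d := by
    have := le_of_mem_V (ht i0) h0 hF (hV i0)
    nlinarith
  set e0 := d * (m + M) / r - M with he0
  have hM' : M ≤ d * (m + M) / r := by
    rw [Nat.le_div_iff_mul_le (by omega)]
    nlinarith
  have he0' : r * (e0 + M) ≤ d * (m + M) := by
    rw [he0, Nat.sub_add_cancel hM']
    exact Nat.mul_div_le _ _
  by_contra hcon
  set n : ι → ℕ := fun i => m * μ i with hn
  have hker : LinearMap.ker (condM j t n e0).mulVecLin = ⊥ := by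
    rw [LinearMap.ker_eq_bot']
    intro c hc
    rw [Matrix.mulVecLin_apply, condM_mulVec_eq_zero] at hc
    by_contra hc0
    apply hcon
    refine ⟨e0, poly e0 c, ?_, poly_homog e0 c, hc, he0'⟩
    intro hp
    apply hc0
    funext v
    rw [← coeff_poly e0 c v, hp]
    rfl
  obtain ⟨g, hg⟩ := LinearMap.exists_leftInverse_of_injective _ hker
  have hL : LinearMap.toMatrix' g * condM j t n e0 = 1 := by
    have := congrArg LinearMap.toMatrix' hg
    rwa [LinearMap.toMatrix'_comp, LinearMap.toMatrix'_id, ← Matrix.toLin'_apply',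
      LinearMap.toMatrix'_toLin'] at this
  set L := LinearMap.toMatrix' g with hLdef
  obtain ⟨w0, hw0⟩ := support_nonempty.2 h0
  have hc0 : coeff w0 F ≠ 0 := mem_support_iff.1 hw0
  obtain ⟨A, I, hI, hfin, hS⟩ := exists_finite_quot (K := K)
    (Set.range (fun x : ι × σ => t x.1 x.2) ∪ (F.coeffs : Set K) ∪ {(coeff w0 F)⁻¹} ∪
      Set.range (fun x : expo σ e0 × (ι × expo σ e0) => L x.1 x.2))
    ((((Set.finite_range _).union (Finset.finite_toSet _)).union (Set.finite_singleton _)).union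
      (Set.finite_range _))
  letI := Ideal.Quotient.field I
  let ψ : A →+* K := A.val.toRingHom
  have hψ : Function.Injective ψ := Subtype.val_injective
  let φ : A →+* A ⧸ I := Ideal.Quotient.mk I
  let t' : ι → σ → A := fun i l => ⟨t i l, hS (Or.inl (Or.inl (Or.inl ⟨(i, l), rfl⟩)))⟩
  let L' : Matrix (expo σ e0) (ι × expo σ e0) A :=
    fun a b => ⟨L a b, hS (Or.inr ⟨(a, b), rfl⟩)⟩
  let cinv : A := ⟨(coeff w0 F)⁻¹, hS (Or.inl (Or.inr rfl))⟩
  obtain ⟨F', hF'⟩ : F ∈ Set.range (map ψ) := by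
    rw [mem_range_map_iff_coeffs_subset]
    intro x hx
    exact ⟨⟨x, hS (Or.inl (Or.inl (Or.inr hx)))⟩, rfl⟩
  have hF'h : F'.IsHomogeneous d := IsHomogeneous.of_map hψ (hF' ▸ hF)
  have hF'V : ∀ i, F' ∈ V (j i) (t' i) (r * μ i) := by
    intro i
    apply mem_V_of_map ψ hψ
    rw [hF']
    exact hV i
  have hunit : coeff w0 F' * cinv = 1 := by
    apply hψ
    rw [map_mul, ← coeff_map, hF', map_one]
    exact mul_inv_cancel₀ hc0
  have hF''0 : map φ F' ≠ 0 := by
    intro h
    have h1 := congrArg (coeff w0) h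
    rw [coeff_map, coeff_zero] at h1
    have h2 := congrArg φ hunit
    rw [map_mul, h1, zero_mul, map_one] at h2
    exact zero_ne_one h2
  have hL' : L' * condM j t' n e0 = 1 := by
    apply Matrix.map_injective hψ
    show (L' * condM j t' n e0).map ψ = (1 : Matrix _ _ A).map ψ
    rw [Matrix.map_mul, condM_map, Matrix.map_one _ (map_zero ψ) (map_one ψ)]
    exact hL
  have hL'' : L'.map φ * condM j (fun i l => φ (t' i l)) n e0 = 1 := by
    rw [← condM_map, ← Matrix.map_mul, hL', Matrix.map_one _ (map_zero φ) (map_one φ)]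
  obtain ⟨e, G, hG0, hGh, hGV, hGe⟩ := core_fin (k := A ⧸ I) j (fun i l => φ (t' i l))
    (fun i => by
      have : t' i (j i) = 0 := Subtype.ext (ht i)
      simp only [this, map_zero]) μ i0 hi0 M hM m r d hm hr (map φ F') hF''0 (hF'h.map φ)
    (fun i => map_mem_V φ (hF'V i))
  have hee : e ≤ e0 := by
    have : e + M ≤ d * (m + M) / r := by
      rw [Nat.le_div_iff_mul_le (by omega), mul_comm]
      exact hGe
    omega
  have hG1h : (G * X (j i0) ^ (e0 - e)).IsHomogeneous e0 := by
    have := hGh.mul (isHomogeneous_X_pow (R := A ⧸ I) (j i0) (e0 - e))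
    rwa [Nat.add_sub_cancel' hee] at this
  have hG10 : G * X (j i0) ^ (e0 - e) ≠ 0 := mul_ne_zero hG0 (pow_ne_zero _ (X_ne_zero _))
  have hz := (condM_mulVec_eq_zero j (fun i l => φ (t' i l)) n e0
    (fun v => coeff (v : σ →₀ ℕ) (G * X (j i0) ^ (e0 - e)))).2 (fun i => by
      rw [poly_coeff e0 _ hG1h]
      exact Ideal.mul_mem_right _ _ (hGV i))
  have hz2 := congrArg (fun x => (L'.map φ).mulVec x) hz
  simp only [Matrix.mulVec_mulVec, hL'', Matrix.one_mulVec, Matrix.mulVec_zero] at hz2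
  apply hG10
  rw [← poly_coeff e0 _ hG1h, hz2]
  simp [poly]

end Transfer

end Pool.Agent.H.MP_4fee6f_ag
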