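import Pool.Agent.H.MP_4fee6f_ag.D

set_option autoImplicit false

namespace Pool.Agent.H.MP_4fee6f_ag

open MvPolynomial

section Points

variable {σ : Type*} [Fintype σ] [DecidableEq σ] {K : Type*} [Field K]

/-- affine coordinates of `p` in the chart `j` -/
noncomputable def tt (p : σ → K) (j : σ) : σ → K := fun l => if l = j then 0 else p l / p j

omit [Fintype σ] in
lemma tt_self (p : σ → K) (j : σ) : tt p j j = 0 := by simp [tt]

/-- restriction to the line through `p` -/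
noncomputable def ev (p : σ → K) : MvPolynomial σ K →+* Polynomial K :=
  eval₂Hom (Polynomial.C : K →+* Polynomial K) (fun i => Polynomial.C (p i) * Polynomial.X)

lemma W_one_le {R : Type*} [CommRing R] (j : σ) (J : Ideal (MvPolynomial σ R))
    (hJ : ∀ l, l ≠ j → X l ∈ J) : W R j 1 ≤ J := by
  intro F hF
  rw [F.as_sum]
  refine Ideal.sum_mem _ fun w hw => ?_
  have h := hF w hw
  have : ∃ l ∈ Finset.univ.erase j, w l ≠ 0 := by
    by_contra hc
    push Not at hc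
    have : wt j w = 0 := Finset.sum_eq_zero hc
    omega
  obtain ⟨l, hl, hwl⟩ := this
  have hlj : l ≠ j := (Finset.mem_erase.1 hl).1
  have hw : w = (w - Finsupp.single l 1) + Finsupp.single l 1 := by
    rw [tsub_add_cancel_of_le]
    rw [Finsupp.single_le_iff]
    omega
  have h3 : (monomial w (coeff w F) : MvPolynomial σ R)
      = monomial (w - Finsupp.single l 1) (coeff w F) * X l := by
    rw [X, monomial_mul, mul_one, ← hw]
  rw [h3]
  exact Ideal.mul_mem_left _ _ (hJ l hlj)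

lemma V_one_le (p : σ → K) (j : σ) (J : Ideal (MvPolynomial σ K))
    (hJ : ∀ l, l ≠ j → X l - C (p l / p j) * X j ∈ J) : V j (tt p j) 1 ≤ J := by
  intro F hF
  rw [mem_V] at hF
  have h1 : W K j 1 ≤ J.comap (sh j (-tt p j)) := by
    apply W_one_le
    intro l hl
    rw [Ideal.mem_comap, sh_X]
    have h2 : (-tt p j) l = -(p l / p j) := by
      rw [Pi.neg_apply, tt, if_neg hl]
    rw [h2, map_neg, neg_mul, ← sub_eq_add_neg]
    exact hJ l hl
  have h3 := h1 hF
  rw [Ideal.mem_comap, sh_neg_sh j (tt p j) (tt_self p j) F] at h3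
  exact h3

lemma ker_ev (p : σ → K) (j : σ) (hj : p j ≠ 0) : RingHom.ker (ev p) = V j (tt p j) 1 := by
  apply le_antisymm
  · intro F hF
    rw [RingHom.mem_ker] at hF
    let J : Ideal (MvPolynomial σ K) := V j (tt p j) 1
    let β : Polynomial K →+* MvPolynomial σ K := Polynomial.eval₂RingHom C (C (p j)⁻¹ * X j)
    have key : (Ideal.Quotient.mk J).comp (β.comp (ev p)) = Ideal.Quotient.mk J := by
      apply MvPolynomial.ringHom_ext
      · intro r
        simp [β, ev]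
      · intro l
        simp only [β, ev, RingHom.comp_apply, eval₂Hom_X', map_mul, Polynomial.coe_eval₂RingHom,
          Polynomial.eval₂_C, Polynomial.eval₂_X]
        rw [← map_mul, ← map_mul, Ideal.Quotient.eq]
        by_cases hl : l = j
        · subst hl
          rw [← mul_assoc, ← C_mul, mul_inv_cancel₀ hj]
          simp
        · show _ ∈ V j (tt p j) 1
          rw [mem_V]
          have : sh j (tt p j) (C (p l) * (C (p j)⁻¹ * X j) - X l) = - X l := by
            simp only [map_sub, map_mul, sh_C, sh_X, tt, if_neg hl, if_true, div_eq_mul_inv,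
              map_zero]
            ring
          rw [this]
          exact neg_mem (X_mem_W hl)
    have := congrArg (fun f => f F) key
    simp only [RingHom.comp_apply, hF, map_zero] at this
    exact Ideal.Quotient.eq_zero_iff_mem.1 this.symm
  · apply V_one_le
    intro l _
    rw [RingHom.mem_ker]
    simp only [ev, map_sub, map_mul, eval₂Hom_X', eval₂Hom_C]
    rw [← mul_assoc, ← Polynomial.C_mul, div_mul_cancel₀ _ hj, sub_self]

lemma eq_ker_ev (p : σ → K) (hp : p ≠ 0) (I : Ideal (MvPolynomial σ K))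
    (h1 : I ≤ RingHom.ker (ev p))
    (h2 : ∀ l j, p j ≠ 0 → X l - C (p l / p j) * X j ∈ I) : I = RingHom.ker (ev p) := by
  obtain ⟨j, hj⟩ := Function.ne_iff.1 hp
  refine le_antisymm h1 ?_
  rw [ker_ev p j hj]
  exact V_one_le p j I fun l _ => h2 l j hj

omit [DecidableEq σ] in
lemma ev_homog (p : σ → K) {g : MvPolynomial σ K} {d : ℕ} (hg : g.IsHomogeneous d) :
    ev p g = Polynomial.C (eval p g) * Polynomial.X ^ d := by
  classical
  conv_lhs => rw [g.as_sum]
  conv_rhs => rw [g.as_sum]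
  rw [map_sum, map_sum, map_sum, Finset.sum_mul]
  refine Finset.sum_congr rfl fun w hw => ?_
  have hd := homog_degree hg hw
  rw [ev, eval₂Hom_monomial, eval_monomial, Finsupp.prod_fintype _ _ (by simp),
    Finsupp.prod_fintype _ _ (by simp), ← hd, Finsupp.degree_eq_sum, map_mul, map_prod,
    ← Finset.prod_pow_eq_pow_sum, mul_assoc, ← Finset.prod_mul_distrib]
  simp [mul_pow]

lemma span_minors (p : σ → K) (hp : p ≠ 0) :
    Ideal.span (Set.range (fun ij : σ × σ =>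
      (X ij.1 * C (p ij.2) - X ij.2 * C (p ij.1) : MvPolynomial σ K))) = RingHom.ker (ev p) := by
  apply eq_ker_ev p hp
  · rw [Ideal.span_le]
    rintro _ ⟨⟨a, b⟩, rfl⟩
    simp only [SetLike.mem_coe, RingHom.mem_ker, ev, map_sub, map_mul, eval₂Hom_X', eval₂Hom_C]
    ring
  · intro l j hj
    have : (X l - C (p l / p j) * X j : MvPolynomial σ K)
        = C (p j)⁻¹ * (X l * C (p j) - X j * C (p l)) := by
      have h1 : (C (p j)⁻¹ * C (p j) : MvPolynomial σ K) = 1 := by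
        rw [← C_mul, inv_mul_cancel₀ hj, C_1]
      rw [div_eq_mul_inv, C_mul]
      linear_combination (-(X l : MvPolynomial σ K)) * h1
    rw [this]
    exact Ideal.mul_mem_left _ _ (Ideal.subset_span ⟨(l, j), rfl⟩)

lemma lin_homog (p : σ → K) (l j : σ) :
    (X l - C (p l / p j) * X j : MvPolynomial σ K).IsHomogeneous 1 :=
  (isHomogeneous_X K l).sub (isHomogeneous_C_mul_X _ _)

lemma span_linear (p : σ → K) (hp : p ≠ 0) :
    Ideal.span {g : MvPolynomial σ K | g.IsHomogeneous 1 ∧ eval p g = 0}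
      = RingHom.ker (ev p) := by
  apply eq_ker_ev p hp
  · rw [Ideal.span_le]
    rintro g ⟨h1, h2⟩
    simp [RingHom.mem_ker, ev_homog p h1, h2]
  · intro l j hj
    refine Ideal.subset_span ⟨lin_homog p l j, ?_⟩
    simp [hj]

lemma span_forms (p : σ → K) (hp : p ≠ 0) :
    Ideal.span {g : MvPolynomial σ K | (∃ d, g.IsHomogeneous d) ∧ eval p g = 0}
      = RingHom.ker (ev p) := by
  apply eq_ker_ev p hp
  · rw [Ideal.span_le]
    rintro g ⟨⟨d, h1⟩, h2⟩
    simp [RingHom.mem_ker, ev_homog p h1, h2]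
  · intro l j hj
    refine Ideal.subset_span ⟨⟨1, lin_homog p l j⟩, ?_⟩
    simp [hj]

lemma ker_pow (p : σ → K) (j : σ) (hj : p j ≠ 0) (n : ℕ) :
    RingHom.ker (ev p) ^ n = V j (tt p j) n := by
  rw [ker_ev p j hj, V_one_pow _ _ (tt_self p j)]

lemma component_mem_ker_pow (p : σ → K) (hp : p ≠ 0) {n : ℕ} {F : MvPolynomial σ K}
    (hF : F ∈ RingHom.ker (ev p) ^ n) (d : ℕ) :
    homogeneousComponent d F ∈ RingHom.ker (ev p) ^ n := by
  obtain ⟨j, hj⟩ := Function.ne_iff.1 hp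
  rw [ker_pow p j hj] at hF ⊢
  exact component_mem_V hF d

omit [Fintype σ] [DecidableEq σ] in
lemma top_component_ne_zero {F : MvPolynomial σ K} (hF : F ≠ 0) :
    homogeneousComponent F.totalDegree F ≠ 0 := by
  classical
  obtain ⟨w, hw, hmax⟩ := Finset.exists_mem_eq_sup F.support (support_nonempty.2 hF)
    (fun s => s.sum fun _ e => e)
  intro h
  have := congrArg (coeff w) h
  rw [coeff_homogeneousComponent, if_pos, coeff_zero] at this
  · exact (mem_support_iff.1 hw) this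
  · rw [totalDegree, hmax]
    rfl

/-- the main inequality for fat points -/
theorem main_ker {ι : Type*} [Finite ι] (N : ℕ) (hN : 1 ≤ N) (p : ι → Fin (N + 1) → K)
    (hp : ∀ i, p i ≠ 0) (μ : ι → ℕ) (hμ : ∃ i, μ i ≠ 0) (m r d : ℕ) (hm : 1 ≤ m) (hr : 1 ≤ r)
    (F : MvPolynomial (Fin (N + 1)) K) (h0 : F ≠ 0) (hF : F.IsHomogeneous d)
    (hV : ∀ i, F ∈ RingHom.ker (ev (p i)) ^ (r * μ i)) :
    ∃ (e : ℕ) (G : MvPolynomial (Fin (N + 1)) K), G ≠ 0 ∧ G.IsHomogeneous e ∧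
      (∀ i, G ∈ RingHom.ker (ev (p i)) ^ (m * μ i)) ∧
      r * (e + (N - 1)) ≤ d * (m + (N - 1)) := by
  haveI := Fintype.ofFinite ι
  choose j hj using fun i => Function.ne_iff.1 (hp i)
  obtain ⟨i0, hi0⟩ := hμ
  have hk : ∀ i n, RingHom.ker (ev (p i)) ^ n = V (j i) (tt (p i) (j i)) n :=
    fun i n => ker_pow (p i) (j i) (hj i) n
  simp only [hk] at hV ⊢
  exact core j (fun i => tt (p i) (j i)) (fun i => tt_self _ _) μ i0 (Nat.pos_of_ne_zero hi0)
    (N - 1) (by rw [Fintype.card_fin]; omega) m r d hm hr F h0 hF hV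

/-- existence of a form with prescribed vanishing -/
theorem exists_form {ι : Type*} [Finite ι] (N : ℕ) (hN : 1 ≤ N) (p : ι → Fin (N + 1) → K)
    (hp : ∀ i, p i ≠ 0) (n : ι → ℕ) :
    ∃ (d : ℕ) (F : MvPolynomial (Fin (N + 1)) K), F ≠ 0 ∧ F.IsHomogeneous d ∧
      ∀ i, F ∈ RingHom.ker (ev (p i)) ^ n i := by
  classical
  haveI := Fintype.ofFinite ι
  have : ∀ i, ∃ g : MvPolynomial (Fin (N + 1)) K, g ≠ 0 ∧ g.IsHomogeneous 1 ∧
      g ∈ RingHom.ker (ev (p i)) := by
    intro i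
    obtain ⟨j, hj⟩ := Function.ne_iff.1 (hp i)
    haveI : Nontrivial (Fin (N + 1)) := Fin.nontrivial_iff_two_le.2 (by omega)
    obtain ⟨l, hl⟩ := exists_ne j
    refine ⟨X l - C (p i l / p i j) * X j, ?_, lin_homog _ l j, ?_⟩
    · intro h
      have := congrArg (eval (Pi.single l 1)) h
      simp [hl.symm] at this
    · rw [RingHom.mem_ker, ev_homog _ (lin_homog _ l j)]
      have hj' : p i j ≠ 0 := hj
      simp [hj']
  choose g hg0 hg1 hg2 using this
  refine ⟨∑ i, 1 * n i, ∏ i, g i ^ n i, Finset.prod_ne_zero_iff.2 fun i _ => pow_ne_zero _ (hg0 i),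
    IsHomogeneous.prod _ _ _ fun i _ => (hg1 i).pow _, fun i => ?_⟩
  rw [← Finset.mul_prod_erase _ _ (Finset.mem_univ i)]
  exact Ideal.mul_mem_right _ _ (Ideal.pow_mem_pow (hg2 i) _)

end Points

section Alpha

variable {K : Type*} [Field K]

/-- least degree of a nonzero form in the ideal -/
noncomputable def aH {σ : Type*} (J : Ideal (MvPolynomial σ K)) : ℕ :=
  sInf {d : ℕ | ∃ f ∈ J, f ≠ 0 ∧ f.IsHomogeneous d}

/-- least total degree of a nonzero element of the ideal -/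
noncomputable def aT {σ : Type*} (J : Ideal (MvPolynomial σ K)) : ℕ :=
  sInf {d : ℕ | ∃ f ∈ J, f ≠ 0 ∧ f.totalDegree = d}

variable {ι : Type*} [Finite ι] {N : ℕ}

/-- the ideal of a fat point scheme -/
noncomputable def fat (p : ι → Fin (N + 1) → K) (n : ι → ℕ) :
    Ideal (MvPolynomial (Fin (N + 1)) K) := ⨅ i, RingHom.ker (ev (p i)) ^ n i

lemma aH_spec (hN : 1 ≤ N) (p : ι → Fin (N + 1) → K) (hp : ∀ i, p i ≠ 0) (n : ι → ℕ) :
    ∃ f ∈ fat p n, f ≠ 0 ∧ f.IsHomogeneous (aH (fat p n)) := by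
  obtain ⟨d, F, h1, h2, h3⟩ := exists_form N hN p hp n
  have hne : {d : ℕ | ∃ f ∈ fat p n, f ≠ 0 ∧ f.IsHomogeneous d}.Nonempty :=
    ⟨d, F, Ideal.mem_iInf.2 h3, h1, h2⟩
  exact Nat.sInf_mem hne

lemma aT_eq_aH (hN : 1 ≤ N) (p : ι → Fin (N + 1) → K) (hp : ∀ i, p i ≠ 0) (n : ι → ℕ) :
    aT (fat p n) = aH (fat p n) := by
  obtain ⟨f, hf, h0, hh⟩ := aH_spec hN p hp n
  apply le_antisymm
  · exact Nat.sInf_le ⟨f, hf, h0, hh.totalDegree h0⟩
  · have hne : {d : ℕ | ∃ f ∈ fat p n, f ≠ 0 ∧ f.totalDegree = d}.Nonempty := ⟨_, f, hf, h0, rfl⟩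
    obtain ⟨g, hg, hg0, hgd⟩ := Nat.sInf_mem hne
    unfold aT
    rw [← hgd]
    refine Nat.sInf_le ⟨homogeneousComponent g.totalDegree g, ?_, top_component_ne_zero hg0,
      homogeneousComponent_isHomogeneous _ _⟩
    exact Ideal.mem_iInf.2 fun i => component_mem_ker_pow _ (hp i) (Ideal.mem_iInf.1 hg i) _

theorem aH_ineq (hN : 1 ≤ N) (p : ι → Fin (N + 1) → K) (hp : ∀ i, p i ≠ 0) (μ : ι → ℕ)
    (hμ : ∃ i, μ i ≠ 0) (m r : ℕ) (hm : 1 ≤ m) (hr : 1 ≤ r) :
    ((aH (fat p fun i => m * μ i) : ℝ) + N - 1) / (m + N - 1)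
      ≤ (aH (fat p fun i => r * μ i) : ℝ) / r := by
  obtain ⟨f, hf, h0, hh⟩ := aH_spec hN p hp (fun i => r * μ i)
  obtain ⟨e, G, hG0, hGh, hGV, hle⟩ := main_ker N hN p hp μ hμ m r _ hm hr f h0 hh
    (Ideal.mem_iInf.1 hf)
  have h1 : aH (fat p fun i => m * μ i) ≤ e := Nat.sInf_le ⟨G, Ideal.mem_iInf.2 hGV, hG0, hGh⟩
  obtain ⟨M, rfl⟩ : ∃ M, N = M + 1 := ⟨N - 1, by omega⟩
  rw [Nat.add_sub_cancel] at hle
  have h2 : r * (aH (fat p fun i => m * μ i) + M) ≤ aH (fat p fun i => r * μ i) * (m + M) :=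
    (Nat.mul_le_mul_left _ (Nat.add_le_add_right h1 _)).trans hle
  have h3 : (r : ℝ) * (aH (fat p fun i => m * μ i) + M)
      ≤ aH (fat p fun i => r * μ i) * (m + M) := by exact_mod_cast h2
  have hm' : (1 : ℝ) ≤ m := by exact_mod_cast hm
  have hr' : (1 : ℝ) ≤ r := by exact_mod_cast hr
  have hM : (0 : ℝ) ≤ M := Nat.cast_nonneg M
  rw [div_le_div_iff₀ (by push_cast; linarith) (by linarith)]
  push_cast
  linarith

lemma aH_subadd (hN : 1 ≤ N) (p : ι → Fin (N + 1) → K) (hp : ∀ i, p i ≠ 0) (μ : ι → ℕ) :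
    Subadditive (fun k : ℕ => (aH (fat p fun i => k * μ i) : ℝ)) := by
  intro a b
  obtain ⟨f, hf, hf0, hfh⟩ := aH_spec hN p hp (fun i => a * μ i)
  obtain ⟨g, hg, hg0, hgh⟩ := aH_spec hN p hp (fun i => b * μ i)
  have : aH (fat p fun i => (a + b) * μ i)
      ≤ aH (fat p fun i => a * μ i) + aH (fat p fun i => b * μ i) := by
    refine Nat.sInf_le ⟨f * g, Ideal.mem_iInf.2 fun i => ?_, mul_ne_zero hf0 hg0, hfh.mul hgh⟩
    show f * g ∈ RingHom.ker (ev (p i)) ^ ((a + b) * μ i)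
    rw [add_mul, pow_add]
    exact Ideal.mul_mem_mul (Ideal.mem_iInf.1 hf i) (Ideal.mem_iInf.1 hg i)
  show (aH (fat p fun i => (a + b) * μ i) : ℝ)
      ≤ (aH (fat p fun i => a * μ i) : ℝ) + (aH (fat p fun i => b * μ i) : ℝ)
  exact_mod_cast this

theorem wald (hN : 1 ≤ N) (p : ι → Fin (N + 1) → K) (hp : ∀ i, p i ≠ 0) (μ : ι → ℕ)
    (hμ : ∃ i, μ i ≠ 0) :
    ∃ L : ℝ, Filter.Tendsto (fun k : ℕ => (aH (fat p fun i => k * μ i) : ℝ) / k) Filter.atTop
      (nhds L) ∧ ∀ m : ℕ, 1 ≤ m →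
        ((aH (fat p fun i => m * μ i) : ℝ) + N - 1) / (m + N - 1) ≤ L := by
  have hs := aH_subadd hN p hp μ
  have ht := hs.tendsto_lim ⟨0, by
    rintro _ ⟨k, rfl⟩
    exact div_nonneg (Nat.cast_nonneg _) (Nat.cast_nonneg _)⟩
  refine ⟨_, ht, fun m hm => ge_of_tendsto ht ?_⟩
  filter_upwards [Filter.eventually_ge_atTop 1] with r hr
  exact aH_ineq hN p hp μ hμ m r hm hr

end Alpha

end Pool.Agent.H.MP_4fee6f_ag
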