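import Pool.Agent.H.MP_4fee6f_ag.E

set_option autoImplicit false

namespace Pool.Agent.H.MP_4fee6f_ag

open MvPolynomial

section Gen

variable {σ : Type*} [Fintype σ] [DecidableEq σ] {R : Type*} [CommRing R]

omit [Fintype σ] in
lemma car_decomp (q : ℕ) (G : MvPolynomial σ R) :
    G = ∑ a ∈ G.support.image (res q), monomial a 1 * expand q (car q a G) := by
  have h : ∀ a, car q a G = ∑ w ∈ G.support,
      if res q w = a then monomial (quo q w) (coeff w G) else 0 := by
    intro a
    conv_lhs => rw [G.as_sum]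
    rw [map_sum]
    exact Finset.sum_congr rfl fun w _ => car_monomial q a w _
  simp only [h, map_sum, Finset.mul_sum]
  rw [Finset.sum_comm]
  conv_lhs => rw [G.as_sum]
  refine Finset.sum_congr rfl fun w hw => ?_
  rw [Finset.sum_eq_single (res q w)]
  · rw [if_pos rfl, expand_monomial, monomial_mul, one_mul, res_add_quo]
  · intro b _ hb
    rw [if_neg (Ne.symm hb), map_zero, mul_zero]
  · intro hn
    exact absurd (Finset.mem_image_of_mem _ hw) hn

omit [Fintype σ] in
lemma support_car (q : ℕ) (a : σ →₀ ℕ) (G : MvPolynomial σ R) {c : σ →₀ ℕ}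
    (hc : c ∈ (car q a G).support) : ∃ w ∈ G.support, res q w = a ∧ quo q w = c := by
  rw [G.as_sum, map_sum] at hc
  obtain ⟨w, hw, hc⟩ := Finset.mem_biUnion.1 (support_sum hc)
  rw [car_monomial] at hc
  split_ifs at hc with h
  · exact ⟨w, hw, h, (Finset.mem_singleton.1 (support_monomial_subset hc)).symm⟩
  · simp at hc

lemma car_degree (q : ℕ) (a : σ →₀ ℕ) {G : MvPolynomial σ R} {d : ℕ} (hG : G.IsHomogeneous d)
    {c : σ →₀ ℕ} (hc : c ∈ (car q a G).support) : a.degree + q * c.degree = d := by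
  obtain ⟨w, hw, rfl, rfl⟩ := support_car q a G hc
  have := homog_degree hG hw
  rwa [← res_add_quo q w, map_add, map_nsmul, smul_eq_mul] at this

lemma car_homog {q : ℕ} (hq : 0 < q) (a : σ →₀ ℕ) {G : MvPolynomial σ R} {d : ℕ}
    (hG : G.IsHomogeneous d) : (car q a G).IsHomogeneous ((d - a.degree) / q) := by
  apply homog_of_degree
  intro c hc
  rw [← car_degree q a hG hc, Nat.add_sub_cancel_left, Nat.mul_div_cancel_left _ hq]

omit [Fintype σ] [DecidableEq σ] in
lemma res_of_degree {q : ℕ} {w : σ →₀ ℕ} (hw : w.degree < q) : res q w = w := by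
  ext l
  rw [res_apply]
  exact Nat.mod_eq_of_lt (lt_of_le_of_lt (Finsupp.le_degree l w) hw)

omit [Fintype σ] in
lemma car_small {q : ℕ} (hq : 0 < q) (a : σ →₀ ℕ) (u : MvPolynomial σ R)
    (hu : ∀ w ∈ u.support, w.degree < q) : car q a u = C (coeff a u) := by
  conv_lhs => rw [u.as_sum]
  conv_rhs => rw [u.as_sum]
  rw [map_sum, coeff_sum, map_sum]
  refine Finset.sum_congr rfl fun w hw => ?_
  have h1 := res_of_degree (hu w hw)
  have h2 : quo q w = 0 := by rw [← h1, quo_res hq]
  rw [car_monomial, h1, h2, coeff_monomial]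
  split_ifs <;> simp

omit [Fintype σ] in
lemma car_mem_of_map {q : ℕ} (hq : 0 < q) (I : Ideal (MvPolynomial σ R)) (a : σ →₀ ℕ)
    {y : MvPolynomial σ R} (hy : y ∈ I.map (expand q : MvPolynomial σ R →ₐ[R] _)) :
    car q a y ∈ I := by
  have key : ∀ r, car q a (r * y) ∈ I := by
    refine Submodule.span_induction (p := fun y _ => ∀ r, car q a (r * y) ∈ I) ?_ ?_ ?_ ?_ hy
    · rintro _ ⟨h, hh, rfl⟩ r
      rw [car_mul_expand hq]
      exact I.mul_mem_left _ hh
    · intro r
      simp
    · intro x y _ _ hx hy r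
      rw [mul_add, map_add]
      exact I.add_mem (hx r) (hy r)
    · intro s x _ hx r
      rw [smul_eq_mul, ← mul_assoc]
      exact hx _
  simpa using key 1

omit [Fintype σ] in
lemma mem_map_of_car (q : ℕ) (I : Ideal (MvPolynomial σ R)) {y : MvPolynomial σ R}
    (hy : ∀ a, car q a y ∈ I) : y ∈ I.map (expand q : MvPolynomial σ R →ₐ[R] _) := by
  rw [car_decomp q y]
  exact Ideal.sum_mem _ fun a _ => Ideal.mul_mem_left _ _ (Ideal.mem_map_of_mem _ (hy a))

lemma res_degree_sh' {q : ℕ} (j : σ) (t t₁ : σ → R)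
    (hc : ∀ h : MvPolynomial σ R, sh j t (expand q h) = expand q (sh j t₁ h))
    (F : MvPolynomial σ R) (s : ℕ) (hs : ∀ w ∈ F.support, (res q w).degree ≤ s) :
    ∀ u ∈ (sh j t F).support, (res q u).degree ≤ s := by
  intro u hu
  rw [F.as_sum, map_sum] at hu
  obtain ⟨w, hw, hu⟩ := Finset.mem_biUnion.1 (support_sum hu)
  rw [monomial_split q, map_mul, hc] at hu
  obtain ⟨u1, hu1, u2, hu2, rfl⟩ := Finset.mem_add.1 (support_mul _ _ hu)
  obtain ⟨v, _, rfl⟩ := Finset.mem_image.1 (support_expand_subset _ hu2)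
  rw [res_add_smul]
  have h1 : u1.degree = (res q w).degree :=
    homog_degree (sh_homog j t (isHomogeneous_monomial _ rfl)) hu1
  exact (degree_res_le q u1).trans (h1 ▸ hs w hw)

lemma car_mem_V' {q : ℕ} (hq : 0 < q) (j : σ) (t t₁ : σ → R) (ht : t j = 0) (ht₁ : t₁ j = 0)
    (hc : ∀ h : MvPolynomial σ R, sh j (-t) (expand q h) = expand q (sh j (-t₁) h))
    (F : MvPolynomial σ R) (n : ℕ) (hn : ∀ u ∈ (sh j t F).support, n ≤ wt j (quo q u))
    (a : σ →₀ ℕ) : car q a F ∈ V j t₁ n := by
  rw [← sh_neg_sh j t ht F, (sh j t F).as_sum, map_sum, map_sum]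
  refine Ideal.sum_mem _ fun u hu => ?_
  rw [monomial_split q, map_mul, hc, car_mul_expand hq]
  refine Ideal.mul_mem_left _ _ ?_
  rw [mem_V, sh_sh_neg j t₁ ht₁]
  exact monomial_mem_W (hn u hu) 1

/-- the residue polynomial attached to a functional -/
noncomputable def Lam (q : ℕ) (lam : MvPolynomial σ R →ₗ[R] R) :
    MvPolynomial σ R →ₗ[R] MvPolynomial σ R :=
  (basisMonomials σ R).constr R (fun w => monomial (res q w) (lam (monomial (quo q w) 1)))

omit [Fintype σ] [DecidableEq σ] in
lemma Lam_monomial (q : ℕ) (lam : MvPolynomial σ R →ₗ[R] R) (w : σ →₀ ℕ) (c : R) :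
    Lam q lam (monomial w c) = monomial (res q w) (lam (monomial (quo q w) c)) := by
  have h1 : ∀ w : σ →₀ ℕ, (monomial w c : MvPolynomial σ R) = c • basisMonomials σ R w := by
    intro w
    simp [smul_monomial]
  rw [h1 w, map_smul, Lam, Module.Basis.constr_basis, h1 (quo q w), map_smul, smul_monomial]
  simp

omit [Fintype σ] [DecidableEq σ] in
lemma Lam_mul_expand {q : ℕ} (hq : 0 < q) (lam : MvPolynomial σ R →ₗ[R] R) (w : σ →₀ ℕ)
    (h : MvPolynomial σ R) :
    Lam q lam (monomial w 1 * expand q h)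
      = monomial (res q w) (lam (monomial (quo q w) 1 * h)) := by
  induction h using MvPolynomial.induction_on' with
  | add p r hp hr => simp only [map_add, mul_add, hp, hr]
  | monomial u b =>
    rw [expand_monomial, monomial_mul, Lam_monomial, res_add_smul, quo_add_smul hq, monomial_mul]

omit [Fintype σ] in
lemma coeff_Lam (q : ℕ) (lam : MvPolynomial σ R →ₗ[R] R) (a : σ →₀ ℕ) (G : MvPolynomial σ R) :
    coeff a (Lam q lam G) = lam (car q a G) := by
  induction G using MvPolynomial.induction_on' with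
  | add p r hp hr => simp only [map_add, coeff_add, hp, hr]
  | monomial u b =>
    rw [Lam_monomial, car_monomial, coeff_monomial]
    split_ifs <;> simp

omit [Fintype σ] in
lemma Lam_pderiv (p : ℕ) (hp : 0 < p) [CharP R p] (lam : MvPolynomial σ R →ₗ[R] R) (l : σ)
    (G : MvPolynomial σ R) : Lam p lam (pderiv l G) = pderiv l (Lam p lam G) := by
  induction G using MvPolynomial.induction_on' with
  | add p r hp hr => simp only [map_add, hp, hr]
  | monomial u b =>
    rw [pderiv_monomial, Lam_monomial, Lam_monomial, pderiv_monomial, res_apply]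
    have hcast : ((u l % p : ℕ) : R) = (u l : R) := (CharP.cast_eq_mod R p (u l)).symm
    by_cases h : u l % p = 0
    · have h0 : (u l : R) = 0 := by rw [← hcast, h, Nat.cast_zero]
      rw [h0, h]
      simp
    · have hq : quo p (u - Finsupp.single l 1) = quo p u := by
        ext i
        rw [quo_apply, quo_apply, Finsupp.tsub_apply, Finsupp.single_apply]
        split_ifs with hi
        · subst hi
          have h1 := Nat.mod_add_div (u l) p
          have h2 := Nat.mod_lt (u l) hp
          apply Nat.div_eq_of_lt_le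
          · rw [mul_comm]; omega
          · rw [Nat.succ_mul, mul_comm]; omega
        · simp
      have hr : res p (u - Finsupp.single l 1) = res p u - Finsupp.single l 1 := by
        ext i
        have h1 := congrArg (fun x => x i) (res_add_quo p (u - Finsupp.single l 1))
        have h2 := congrArg (fun x => x i) (res_add_quo p u)
        rw [hq] at h1
        simp only [Finsupp.coe_add, Pi.add_apply, Finsupp.tsub_apply, Finsupp.single_apply] at h1 h2 ⊢
        split_ifs at h1 ⊢ with hi
        · subst hi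
          have h3 := res_apply p u l
          omega
        · omega
      rw [hq, hr, hcast]
      congr 1
      have : (monomial (quo p u) (b * (u l : R)) : MvPolynomial σ R)
          = (u l : R) • monomial (quo p u) b := by
        rw [smul_monomial, smul_eq_mul, mul_comm]
      rw [this, map_smul, smul_eq_mul, mul_comm]

/-- linearity of `Lam` in low degrees -/
lemma Lam_mul {q : ℕ} (hq : 0 < q) (lam : MvPolynomial σ R →ₗ[R] R) (n : ℕ)
    (J : Ideal (MvPolynomial σ R))
    (h1 : ∀ (h : MvPolynomial σ R) (e : ℕ), h.IsHomogeneous e → e ≠ n → lam h = 0)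
    (h2 : ∀ (h : MvPolynomial σ R) (e : ℕ), h.IsHomogeneous e → e < n → h ∈ J →
      ∀ c : σ →₀ ℕ, lam (monomial c 1 * h) = 0)
    {H : MvPolynomial σ R} {d : ℕ} (hH : H.IsHomogeneous d) (hJ : ∀ a, car q a H ∈ J)
    {r : MvPolynomial σ R} {e : ℕ} (hr : r.IsHomogeneous e) (hde : d + e < q * (n + 1)) :
    Lam q lam (r * H) = r * Lam q lam H := by
  have key : ∀ w : σ →₀ ℕ, w.degree = e →
      Lam q lam (monomial w 1 * H) = monomial w 1 * Lam q lam H := by
    intro w hw
    conv_lhs => rw [car_decomp q H]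
    conv_rhs => rw [car_decomp q H]
    rw [Finset.mul_sum, map_sum, map_sum, Finset.mul_sum]
    refine Finset.sum_congr rfl fun a ha => ?_
    obtain ⟨w0, -, hw0⟩ := Finset.mem_image.1 ha
    have ha1 : res q a = a := by rw [← hw0, res_res]
    have ha2 : quo q a = 0 := by rw [← hw0, quo_res hq]
    rw [← mul_assoc, monomial_mul, one_mul, Lam_mul_expand hq, Lam_mul_expand hq, ha1, ha2,
      monomial_mul, one_mul]
    have hone : (monomial (0 : σ →₀ ℕ) (1 : R) : MvPolynomial σ R) = 1 := rfl
    rw [hone, one_mul]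
    set h := car q a H with hh
    by_cases h0 : h = 0
    · simp [h0]
    obtain ⟨c, hc⟩ := support_nonempty.2 h0
    have hd := car_degree q a hH hc
    have hhom : h.IsHomogeneous c.degree := by
      apply homog_of_degree
      intro c' hc'
      have := car_degree q a hH hc'
      rw [← hd] at this
      exact Nat.eq_of_mul_eq_mul_left hq (Nat.add_left_cancel this)
    rcases lt_trichotomy c.degree n with hlt | heq | hgt
    · rw [h2 h _ hhom hlt (hJ a), h1 h _ hhom hlt.ne]
      simp
    · have hsmall : (w + a).degree < q := by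
        rw [map_add, hw]
        rw [heq] at hd
        rw [Nat.mul_succ] at hde
        omega
      have h3 := res_of_degree hsmall
      have h4 : quo q (w + a) = 0 := by rw [← h3, quo_res hq]
      rw [h3, h4, hone, one_mul]
    · exfalso
      have : q * (n + 1) ≤ q * c.degree := Nat.mul_le_mul_left _ hgt
      omega
  conv_lhs => rw [r.as_sum]
  conv_rhs => rw [r.as_sum]
  rw [Finset.sum_mul, Finset.sum_mul, map_sum]
  refine Finset.sum_congr rfl fun w hw => ?_
  have h3 : (monomial w (coeff w r) : MvPolynomial σ R) = coeff w r • monomial w 1 := by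
    simp [smul_monomial]
  rw [h3, smul_mul_assoc, smul_mul_assoc, map_smul, key w (homog_degree hr hw)]

/-- the part of an ideal generated in degrees below `n` -/
noncomputable def low (J : Ideal (MvPolynomial σ R)) (n : ℕ) : Ideal (MvPolynomial σ R) :=
  Ideal.span {g | (∃ e < n, g.IsHomogeneous e) ∧ g ∈ J}

omit [Fintype σ] [DecidableEq σ] in
lemma mem_low {J : Ideal (MvPolynomial σ R)} {n e : ℕ} {g : MvPolynomial σ R} (he : e < n)
    (hg : g.IsHomogeneous e) (hJ : g ∈ J) : g ∈ low J n :=
  Ideal.subset_span ⟨⟨e, he, hg⟩, hJ⟩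

end Gen

section Key

variable {σ : Type*} [Fintype σ] [DecidableEq σ] {k : Type*} [Field k]

lemma sh_expand' (p : ℕ) [Fact p.Prime] [CharP k p] (j : σ) (t : σ → k) (h : MvPolynomial σ k) :
    sh j t (expand p h) = expand p (sh j (fun l => frobenius k p (t l)) h) := by
  have : (sh j t).comp (expand p) = (expand p).comp (sh j (fun l => frobenius k p (t l))) := by
    apply MvPolynomial.algHom_ext
    intro l
    simp only [AlgHom.comp_apply, expand_X, map_pow, sh_X, map_add, map_mul, expand_C,
      frobenius_def]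
    rw [add_pow_char, mul_pow]
  exact congrArg (fun f => f h) this

lemma sh_expand_neg (p : ℕ) [Fact p.Prime] [CharP k p] (j : σ) (t : σ → k)
    (h : MvPolynomial σ k) :
    sh j (-t) (expand p h) = expand p (sh j (-fun l => frobenius k p (t l)) h) := by
  have : (fun l => frobenius k p ((-t) l)) = -fun l => frobenius k p (t l) := by
    funext l
    simp
  rw [sh_expand' p j (-t) h, this]

lemma car_mem_of_V (p : ℕ) [Fact p.Prime] [CharP k p] (j : σ) (t : σ → k) (ht : t j = 0)
    (M : ℕ) (hM : Fintype.card σ = M + 3) (μ : ℕ) {H : MvPolynomial σ k}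
    (hH : H ∈ V j t (p * (μ + M + 1) - 1)) (a : σ →₀ ℕ) :
    car p a H ∈ V j (fun l => frobenius k p (t l)) μ := by
  have hp : 0 < p := (Fact.out : p.Prime).pos
  apply car_mem_V' hp j t _ ht (by simp [ht]) (sh_expand_neg p j t)
  intro u hu
  have h2 := hH u hu
  rw [← res_add_quo p u, wt_add, wt_smul] at h2
  have h4 : wt j (res p u) ≤ (M + 2) * (p - 1) := by
    have := wt_res_le hp j u
    rwa [hM] at this
  by_contra hlt
  have h7 : p * (wt j (quo p u) + 1) ≤ p * μ := Nat.mul_le_mul_left _ (by omega)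
  obtain ⟨q', rfl⟩ : ∃ q', p = q' + 1 := ⟨p - 1, by omega⟩
  rw [Nat.add_sub_cancel] at h4
  have h8 : (q' + 1) * (μ + M + 1) = (q' + 1) * μ + (M + 1) * q' + M + 1 := by ring
  have h9 : (M + 2) * q' = (M + 1) * q' + q' := by ring
  rw [Nat.mul_succ] at h7
  omega

omit [Fintype σ] [DecidableEq σ] in
lemma pderiv_ode (l : σ) (f g : MvPolynomial σ k) (a b : ℕ) :
    f * g * pderiv l (f ^ a * g ^ b)
      = (a : k) • (g * pderiv l f * (f ^ a * g ^ b)) + (b : k) • (f * pderiv l g * (f ^ a * g ^ b)) := by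
  rw [pderiv_mul, pderiv_pow, pderiv_pow, Nat.cast_smul_eq_nsmul, Nat.cast_smul_eq_nsmul,
    nsmul_eq_mul, nsmul_eq_mul]
  rcases a with _ | a <;> rcases b with _ | b <;>
    simp only [Nat.add_sub_cancel, Nat.cast_zero, pow_succ] <;> ring

theorem key_fin (p : ℕ) [Fact p.Prime] [CharP k p] [PerfectRing k p] {ι : Type*}
    (j : ι → σ) (t : ι → σ → k) (ht : ∀ i, t i (j i) = 0) (μ : ι → ℕ)
    (M : ℕ) (hM : Fintype.card σ = M + 3) (n a b D s : ℕ) (f g : MvPolynomial σ k)
    (hf : f.IsHomogeneous D) (hg : g.IsHomogeneous s) (hf0 : f ≠ 0) (hg0 : g ≠ 0)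
    (hV : ∀ i, f ^ a * g ^ b ∈ V (j i) (t i) (p * (μ i + M + 1))) (hn1 : 1 ≤ n) (hnp : n < p)
    (hdeg : a * D + b * s + D + s < p * (n + 1)) (β : σ →₀ ℕ) :
    car p β (f ^ a * g ^ b) ∈
      low (⨅ i, V (j i) (fun l => frobenius k p (t i l)) (μ i)) n := by
  have hp2 : 2 ≤ p := (Fact.out : p.Prime).two_le
  have hp : 0 < p := by omega
  set F := f ^ a * g ^ b with hFdef
  set J := ⨅ i, V (j i) (fun l => frobenius k p (t i l)) (μ i) with hJdef
  have hF : F.IsHomogeneous (a * D + b * s) := by
    have := (hf.pow a).mul (hg.pow b)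
    rwa [mul_comm D, mul_comm s] at this
  set d := a * D + b * s with hd
  have hgood : ∀ H : MvPolynomial σ k, (∀ i, H ∈ V (j i) (t i) (p * (μ i + M + 1) - 1)) →
      ∀ a, car p a H ∈ J := fun H hH a =>
    Ideal.mem_iInf.2 fun i => car_mem_of_V p (j i) (t i) (ht i) M hM (μ i) (hH i) a
  have hFJ := hgood F fun i => V_anti (Nat.sub_le _ _) (hV i)
  have hF'J : ∀ l a, car p a (pderiv l F) ∈ J := fun l =>
    hgood _ fun i => pderiv_mem_V (ht i) (hV i) l
  by_contra hcon
  obtain ⟨lam0, hl1, hl2⟩ := Submodule.exists_le_ker_of_notMem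
    (p := (low J n).restrictScalars k) (v := car p β F) hcon
  let lam : MvPolynomial σ k →ₗ[k] k := lam0 ∘ₗ homogeneousComponent n
  have h1 : ∀ (h : MvPolynomial σ k) (e : ℕ), h.IsHomogeneous e → e ≠ n → lam h = 0 := by
    intro h e he hne
    show lam0 (homogeneousComponent n h) = 0
    rw [homogeneousComponent_of_mem he, if_neg hne.symm, map_zero]
  have h1' : ∀ (h : MvPolynomial σ k), h.IsHomogeneous n → lam h = lam0 h := by
    intro h he
    show lam0 (homogeneousComponent n h) = _
    rw [homogeneousComponent_of_mem he, if_pos rfl]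
  have h2 : ∀ (h : MvPolynomial σ k) (e : ℕ), h.IsHomogeneous e → e < n → h ∈ J →
      ∀ c : σ →₀ ℕ, lam (monomial c 1 * h) = 0 := by
    intro h e he hlt hJ c
    have h3 : (monomial c 1 * h).IsHomogeneous (c.degree + e) :=
      (isHomogeneous_monomial _ rfl).mul he
    by_cases h4 : c.degree + e = n
    · rw [h1' _ (h4 ▸ h3)]
      exact hl2 (Ideal.mul_mem_left _ _ (mem_low hlt he hJ))
    · exact h1 _ _ h3 h4
  have hβh := car_homog hp β hF
  have hβn : (d - β.degree) / p = n := by
    rcases lt_trichotomy ((d - β.degree) / p) n with hlt | heq | hgt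
    · exact absurd (mem_low hlt hβh (hFJ β)) hcon
    · exact heq
    · exfalso
      have := (Nat.le_div_iff_mul_le hp).1 hgt
      rw [mul_comm] at this
      have h5 : p * n.succ = p * (n + 1) := rfl
      omega
  rw [hβn] at hβh
  set u := Lam p lam F with hu
  have hu0 : u ≠ 0 := by
    intro h
    have := coeff_Lam p lam β F
    rw [← hu, h, coeff_zero, h1' _ hβh] at this
    exact hl1 this.symm
  have hudeg : ∀ w ∈ u.support, w.degree + p * n = d := by
    intro w hw
    rw [mem_support_iff, hu, coeff_Lam] at hw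
    have h3 : car p w F ≠ 0 := by
      intro h
      rw [h, map_zero] at hw
      exact hw rfl
    obtain ⟨c, hc⟩ := support_nonempty.2 h3
    have h4 := car_homog hp w hF
    have h5 : (d - w.degree) / p = n := by
      by_contra h
      exact hw (h1 _ _ h4 h)
    rw [h5] at h4
    rw [← homog_degree h4 hc]
    exact car_degree p w hF hc
  have husmall : ∀ w ∈ u.support, w.degree < p := by
    intro w hw
    have := hudeg w hw
    rw [Nat.mul_succ] at hdeg
    omega
  have hode : ∀ l, u * pderiv l F = F * pderiv l u := by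
    intro l
    have e1 := pderiv_ode l f g a b
    rw [← hFdef] at e1
    have e2 := congrArg (Lam p lam) e1
    rw [map_add, map_smul, map_smul,
      Lam_mul hp lam n J h1 h2 (hF.pderiv (i := l)) (hF'J l) (hf.mul hg) (by omega),
      Lam_mul hp lam n J h1 h2 hF hFJ (hg.mul (hf.pderiv (i := l))) (by omega),
      Lam_mul hp lam n J h1 h2 hF hFJ (hf.mul (hg.pderiv (i := l))) (by omega),
      Lam_pderiv p hp, ← hu] at e2
    apply mul_left_cancel₀ (mul_ne_zero hf0 hg0)
    rw [smul_eq_C_mul, smul_eq_C_mul] at e1 e2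
    linear_combination u * e1 - F * e2
  obtain ⟨p', hp'⟩ : ∃ p', p = p' + 2 := ⟨p - 2, by omega⟩
  have hW : ∀ l, pderiv l (F * u ^ (p' + 1)) = 0 := by
    intro l
    rw [pderiv_mul, pderiv_pow, Nat.add_sub_cancel]
    have h3 : ((p' + 2 : ℕ) : MvPolynomial σ k) = 0 := by
      rw [← hp']
      exact CharP.cast_eq_zero _ p
    push_cast at h3 ⊢
    linear_combination u ^ p' * hode l + F * u ^ p' * pderiv l u * h3
  obtain ⟨H, hH⟩ := exists_pth_root p _ hW
  have hmain : F * expand p (map (frobenius k p) u) = u * expand p (map (frobenius k p) H) := by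
    rw [← map_expand, ← map_expand, map_frobenius_expand, map_frobenius_expand, hH]
    nth_rewrite 1 [hp']
    ring
  have hres : ∀ w ∈ F.support, (res p w).degree ≤ p - 1 := by
    intro w hw
    have h3 := congrArg (car p (res p w)) hmain
    rw [car_mul_expand hp, car_mul_expand hp, car_small hp _ u husmall] at h3
    have h4 : car p (res p w) F ≠ 0 := by
      intro h
      have := coeff_car hp _ (res_res p w) F (quo p w)
      rw [h, res_add_quo, coeff_zero] at this
      exact (mem_support_iff.1 hw) this.symm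
    have h5 : map (frobenius k p) u ≠ 0 := by
      intro h
      exact hu0 (map_injective _ (frobenius k p).injective (by rw [h, map_zero]))
    have h6 : coeff (res p w) u ≠ 0 := by
      intro h
      rw [h, map_zero, zero_mul] at h3
      exact mul_ne_zero h4 h5 h3
    have := husmall _ (mem_support_iff.2 h6)
    omega
  have hhi : ∀ i, car p β F ∈ V (j i) (fun l => frobenius k p (t i l)) (μ i + 1) := by
    intro i
    apply car_mem_V' hp (j i) (t i) _ (ht i) (by simp [ht i]) (sh_expand_neg p (j i) (t i))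
    intro w hw
    have h3 := res_degree_sh' (j i) (t i) _ (sh_expand' p (j i) (t i)) F _ hres w hw
    have h4 := hV i w hw
    rw [← res_add_quo p w, wt_add, wt_smul] at h4
    have h5 := wt_le_degree (j i) (res p w)
    by_contra hlt
    have h7 : p * wt (j i) (quo p w) ≤ p * μ i := Nat.mul_le_mul_left _ (by omega)
    have h8 : p * (μ i + M + 1) = p * μ i + p * M + p := by ring
    omega
  have heuler := hβh.sum_X_mul_pderiv
  have hmem : n • car p β F ∈ low J n := by
    rw [← heuler]
    refine Ideal.sum_mem _ fun l _ => Ideal.mul_mem_left _ _ ?_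
    refine mem_low (e := n - 1) (by omega) hβh.pderiv (Ideal.mem_iInf.2 fun i => ?_)
    have := pderiv_mem_V (by simp [ht i]) (hhi i) l
    rwa [Nat.add_sub_cancel] at this
  have h3 : lam0 (n • car p β F) = 0 := hl2 hmem
  rw [map_nsmul, nsmul_eq_mul, mul_eq_zero] at h3
  rcases h3 with h3 | h3
  · rw [CharP.cast_eq_zero_iff k p] at h3
    exact absurd (Nat.le_of_dvd (by omega) h3) (by omega)
  · exact hl1 h3

/-- a form vanishing at all the points -/
lemma exists_vanishing {ι : Type*} [Fintype ι] (j : ι → σ) (t : ι → σ → k)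
    (ht : ∀ i, t i (j i) = 0) (hM : 2 ≤ Fintype.card σ) :
    ∃ g : MvPolynomial σ k, g ≠ 0 ∧ g.IsHomogeneous (Fintype.card ι) ∧
      ∀ i, g ∈ V (j i) (t i) 1 := by
  classical
  have : ∀ i, ∃ g : MvPolynomial σ k, g ≠ 0 ∧ g.IsHomogeneous 1 ∧ g ∈ V (j i) (t i) 1 := by
    intro i
    haveI : Nontrivial σ := Fintype.one_lt_card_iff_nontrivial.1 (by omega)
    obtain ⟨l, hl⟩ := exists_ne (j i)
    have h1 : sh (j i) (t i) (X l - C (t i l) * X (j i)) = X l := by
      simp only [map_sub, map_mul, sh_X, sh_C, ht i, map_zero]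
      ring
    refine ⟨X l - C (t i l) * X (j i), ?_,
      (isHomogeneous_X k l).sub (isHomogeneous_C_mul_X _ _), ?_⟩
    · intro h
      rw [h, map_zero] at h1
      exact X_ne_zero l h1.symm
    · rw [mem_V, h1]
      exact X_mem_W hl
  choose g hg0 hg1 hg2 using this
  refine ⟨∏ i, g i, Finset.prod_ne_zero_iff.2 fun i _ => hg0 i, ?_, fun i => ?_⟩
  · have := IsHomogeneous.prod Finset.univ g (fun _ => 1) fun i _ => hg1 i
    simpa using this
  · rw [← Finset.mul_prod_erase _ _ (Finset.mem_univ i)]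
    exact Ideal.mul_mem_right _ _ (hg2 i)

theorem cont_fin (p : ℕ) [Fact p.Prime] [CharP k p] [PerfectRing k p] {ι : Type*} [Fintype ι]
    (j : ι → σ) (t : ι → σ → k) (ht : ∀ i, t i (j i) = 0) (μ : ι → ℕ)
    (M : ℕ) (hM : Fintype.card σ = M + 3) (T D b : ℕ) (hT : 1 ≤ T) (hD : T ≤ D)
    (hb : ∀ i, T * (μ i + M + 1) ≤ b) (hp : T * (b * Fintype.card ι + D + Fintype.card ι) < p)
    (f : MvPolynomial σ k) (hf : f.IsHomogeneous D)
    (hV : ∀ i, f ∈ V (j i) (t i) (T * (μ i + M + 1))) :
    map (frobenius k p) f ∈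
      low (⨅ i, V (j i) (fun l => frobenius k p (t i l)) (μ i)) (D / T) ^ T := by
  by_cases hf0 : f = 0
  · simp [hf0]
  obtain ⟨g, hg0, hg, hgV⟩ := exists_vanishing j t ht (by omega)
  set s := Fintype.card ι with hs
  set n := D / T with hn
  set a := p / T with ha
  set L := low (⨅ i, V (j i) (fun l => frobenius k p (t i l)) (μ i)) n with hL
  have hp0 : 0 < p := by omega
  have e1 : T * a + p % T = p := Nat.div_add_mod p T
  have e2 : p % T < T := Nat.mod_lt _ hT
  have e3 : T * n + D % T = D := Nat.div_add_mod D T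
  have e4 : D % T < T := Nat.mod_lt _ hT
  have hn1 : 1 ≤ n := (Nat.le_div_iff_mul_le hT).2 (by omega)
  have hnp : n < p := by
    have h1 : n ≤ D := Nat.div_le_self _ _
    have h2 : 1 * (b * s + D + s) ≤ T * (b * s + D + s) := Nat.mul_le_mul_right _ hT
    omega
  have hdeg : a * D + b * s + D + s < p * (n + 1) := by
    apply Nat.lt_of_mul_lt_mul_left (a := T)
    have h1 : T * a * D ≤ p * D := Nat.mul_le_mul_right _ (by omega)
    have h2 : p * (D + 1) ≤ p * (T * n + T) := Nat.mul_le_mul_left _ (by omega)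
    nlinarith
  have hFV : ∀ i, f ^ a * g ^ b ∈ V (j i) (t i) (p * (μ i + M + 1)) := by
    intro i
    refine V_anti ?_ (V_mul (V_pow (hV i) a) (V_pow (hgV i) b))
    have h1 := hb i
    have h2 : p % T * (μ i + M + 1) ≤ T * (μ i + M + 1) := Nat.mul_le_mul_right _ e2.le
    nth_rewrite 1 [← e1]
    nlinarith
  have h1 := mem_map_of_car p L
    (key_fin p j t ht μ M hM n a b D s f g hf hg hf0 hg0 hFV hn1 hnp hdeg)
  have h2 := Ideal.mul_mem_left _ (f ^ (p % T)) (Ideal.pow_mem_pow h1 T)
  rw [← Ideal.map_pow] at h2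
  have h3 : f ^ (p % T) * (f ^ a * g ^ b) ^ T
      = g ^ (b * T) * expand p (map (frobenius k p) f) := by
    rw [← map_expand, map_frobenius_expand, mul_pow, ← pow_mul, ← pow_mul]
    nth_rewrite 2 [← e1]
    ring
  rw [h3] at h2
  obtain ⟨w, hw⟩ := support_nonempty.2 (pow_ne_zero (b * T) hg0)
  have h4 := car_mem_of_map hp0 _ w h2
  rw [car_mul_expand hp0, car_small hp0 w _ (fun u hu => by
    rw [homog_degree (hg.pow (b * T)) hu]
    nlinarith)] at h4
  have h5 := Ideal.mul_mem_left _ (C (coeff w (g ^ (b * T)))⁻¹) h4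
  rwa [← mul_assoc, ← C_mul, inv_mul_cancel₀ (mem_support_iff.1 hw), C_1, one_mul] at h5

end Key

end Pool.Agent.H.MP_4fee6f_ag
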