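import Pool.Agent.H.MP_4fee6f_ag.F

set_option autoImplicit false

namespace Pool.Agent.H.MP_4fee6f_ag

open MvPolynomial

section Hom

variable {σ : Type*} [Fintype σ] [DecidableEq σ] {R : Type*} [CommRing R]

omit [Fintype σ] [DecidableEq σ] in
lemma comp_mem_of_span (S : Set (MvPolynomial σ R)) (I : Ideal (MvPolynomial σ R)) (D : ℕ)
    (h : ∀ g ∈ S, ∃ e, g.IsHomogeneous e ∧
      ∀ (w : σ →₀ ℕ) (c : R), w.degree + e = D → monomial w c * g ∈ I)
    {x : MvPolynomial σ R} (hx : x ∈ Ideal.span S) : homogeneousComponent D x ∈ I := by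
  have key : ∀ r, homogeneousComponent D (r * x) ∈ I := by
    refine Submodule.span_induction (p := fun y _ => ∀ r, homogeneousComponent D (r * y) ∈ I)
      ?_ ?_ ?_ ?_ hx
    · intro g hg r
      obtain ⟨e, he, hw⟩ := h g hg
      rw [r.as_sum, Finset.sum_mul, map_sum]
      refine Ideal.sum_mem _ fun w _ => ?_
      have h3 : (monomial w (coeff w r) * g).IsHomogeneous (w.degree + e) :=
        (isHomogeneous_monomial _ rfl).mul he
      rw [homogeneousComponent_of_mem h3]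
      split_ifs with h4
      · exact hw w _ h4.symm
      · exact I.zero_mem
    · intro r
      simp
    · intro x y _ _ hx hy r
      rw [mul_add, map_add]
      exact I.add_mem (hx r) (hy r)
    · intro s x _ hx r
      rw [smul_eq_mul, ← mul_assoc]
      exact hx _
  simpa using key 1

omit [Fintype σ] [DecidableEq σ] in
lemma low_pow_le (J : Ideal (MvPolynomial σ R)) (n T : ℕ) :
    low J n ^ T ≤ Ideal.span {g | (∃ e ≤ T * (n - 1), g.IsHomogeneous e) ∧ g ∈ low J n ^ T} := by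
  induction T with
  | zero =>
    rw [pow_zero, Ideal.one_eq_top, top_le_iff, Ideal.eq_top_iff_one]
    exact Ideal.subset_span ⟨⟨0, Nat.zero_le _, isHomogeneous_one σ R⟩, trivial⟩
  | succ T ih =>
    rw [pow_succ]
    refine (Ideal.mul_mono_left ih).trans ?_
    conv_lhs => rw [low]
    rw [Ideal.span_mul_span', Ideal.span_le]
    rintro _ ⟨x, ⟨⟨e, he, hx⟩, hx'⟩, y, ⟨⟨e', he', hy⟩, hy'⟩, rfl⟩
    refine Ideal.subset_span ⟨⟨e + e', ?_, hx.mul hy⟩, Ideal.mul_mem_mul hx' (mem_low he' hy hy')⟩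
    rw [Nat.succ_mul]
    omega

omit [Fintype σ] [DecidableEq σ] in
lemma low_pow_component (J : Ideal (MvPolynomial σ R)) (n T D : ℕ) {x : MvPolynomial σ R}
    (hx : x ∈ low J n ^ T) : homogeneousComponent D x ∈ low J n ^ T := by
  refine comp_mem_of_span _ _ D ?_ (low_pow_le J n T hx)
  rintro g ⟨⟨e, -, he⟩, hg⟩
  exact ⟨e, he, fun w c _ => Ideal.mul_mem_left _ _ hg⟩

omit [Fintype σ] [DecidableEq σ] in
lemma low_pow_mem (J : Ideal (MvPolynomial σ R)) (n T D : ℕ) (hn : 1 ≤ n) (hD : T * n ≤ D)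
    {x : MvPolynomial σ R} (hx : x ∈ low J n ^ T) (hh : x.IsHomogeneous D) :
    x ∈ idealOfVars σ R ^ T * J ^ T := by
  have h1 : homogeneousComponent D x = x := by rw [homogeneousComponent_of_mem hh, if_pos rfl]
  rw [← h1]
  refine comp_mem_of_span _ _ D ?_ (low_pow_le J n T hx)
  rintro g ⟨⟨e, he1, he⟩, hg⟩
  refine ⟨e, he, fun w c hw => Ideal.mul_mem_mul ?_ ?_⟩
  · rw [mem_pow_idealOfVars_iff]
    intro u hu
    rw [Finset.mem_singleton.1 (support_monomial_subset hu)]
    obtain ⟨n', rfl⟩ : ∃ n', n = n' + 1 := ⟨n - 1, by omega⟩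
    rw [Nat.add_sub_cancel] at he1
    rw [Nat.mul_succ] at hD
    omega
  · refine Ideal.pow_right_mono ?_ T hg
    rw [low, Ideal.span_le]
    exact fun y hy => hy.2

lemma map_poly {S : Type*} [CommRing S] (φ : R →+* S) (e : ℕ) (c : expo σ e → R) :
    map φ (poly e c) = poly e (fun v => φ (c v)) := by
  simp [poly]

lemma poly_mulVec (e : ℕ) (B : Matrix (expo σ e) (expo σ e) R) (c : expo σ e → R) :
    poly e (B.mulVec c) = ∑ x, C (c x) * poly e (fun v => B v x) := by
  simp only [poly, Matrix.mulVec, dotProduct, map_sum, Finset.mul_sum, C_mul_monomial]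
  rw [Finset.sum_comm]
  simp only [mul_comm]

lemma lin_component (lam : MvPolynomial σ R →ₗ[R] R) (D : ℕ) (y : MvPolynomial σ R) :
    lam (homogeneousComponent D y)
      = ∑ v : expo σ D, lam (monomial (v : σ →₀ ℕ) 1) * coeff (v : σ →₀ ℕ) y := by
  rw [← poly_coeff D _ (homogeneousComponent_isHomogeneous D y), poly, map_sum]
  refine Finset.sum_congr rfl fun v _ => ?_
  rw [coeff_homogeneousComponent, if_pos (mem_expo.1 v.2), mul_comm, ← smul_eq_mul, ← map_smul,
    smul_monomial, smul_eq_mul, mul_one]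

end Hom

lemma exists_ginv {K : Type*} [Field K] {m n : Type*} [Fintype m] [Fintype n] [DecidableEq m]
    [DecidableEq n] (M : Matrix m n K) : ∃ G : Matrix n m K, M * G * M = M := by
  let f := Matrix.toLin' M
  obtain ⟨g, hg⟩ := f.rangeRestrict.exists_rightInverse_of_surjective f.range_rangeRestrict
  obtain ⟨h, hh⟩ := LinearMap.exists_leftInverse_of_injective (LinearMap.range f).subtype
    (Submodule.ker_subtype _)
  refine ⟨LinearMap.toMatrix' (g ∘ₗ h), ?_⟩
  apply Matrix.toLin'.injective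
  rw [Matrix.toLin'_mul, Matrix.toLin'_mul, Matrix.toLin'_toMatrix']
  apply LinearMap.ext
  intro x
  have h1 : h (f x) = f.rangeRestrict x := congrArg (fun φ => φ (f.rangeRestrict x)) hh
  have h2 : f.rangeRestrict (g (f.rangeRestrict x)) = f.rangeRestrict x :=
    congrArg (fun φ => φ (f.rangeRestrict x)) hg
  show f (g (h (f x))) = f x
  rw [h1]
  exact congrArg Subtype.val h2

section Transfer

variable {σ : Type*} [Fintype σ] [DecidableEq σ] {ι : Type*} [Fintype ι]

theorem cont {K : Type*} [Field K] [CharZero K]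
    (j : ι → σ) (t : ι → σ → K) (ht : ∀ i, t i (j i) = 0) (μ : ι → ℕ)
    (M : ℕ) (hM : Fintype.card σ = M + 3) (T D : ℕ) (hT : 1 ≤ T) (hD : T ≤ D)
    (f : MvPolynomial σ K) (hf : f.IsHomogeneous D)
    (hV : ∀ i, f ∈ V (j i) (t i) (T * (μ i + M + 1))) :
    f ∈ low (⨅ i, V (j i) (t i) (μ i)) (D / T) ^ T := by
  classical
  set n := D / T with hn
  set L := low (⨅ i, V (j i) (t i) (μ i)) n with hL
  by_contra hcon
  obtain ⟨lam, hl1, hl2⟩ := Submodule.exists_le_ker_of_notMem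
    (p := (L ^ T).restrictScalars K) (v := f) hcon
  choose G hG using fun e : ℕ => exists_ginv (condM j t μ e)
  set b := T * (∑ i, μ i + M + 1) with hb
  set P := T * (b * Fintype.card ι + D + Fintype.card ι) with hP
  obtain ⟨A, I, hI, hfin, hS⟩ := exists_finite_quot (K := K)
    (Set.range (fun x : ι × σ => t x.1 x.2) ∪ (f.coeffs : Set K) ∪
      {(lam f)⁻¹} ∪ {((P.factorial : ℕ) : K)⁻¹} ∪
      Set.range (fun x : Σ e : Fin n, expo σ e × (ι × expo σ e) => G x.1 x.2.1 x.2.2) ∪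
      Set.range (fun v : expo σ D => lam (monomial (v : σ →₀ ℕ) 1)))
    ((((((Set.finite_range _).union (Finset.finite_toSet _)).union
      (Set.finite_singleton _)).union (Set.finite_singleton _)).union
      (Set.finite_range _)).union (Set.finite_range _))
  letI := Ideal.Quotient.field I
  let ψ : A →+* K := A.val.toRingHom
  have hψ : Function.Injective ψ := Subtype.val_injective
  let φ : A →+* A ⧸ I := Ideal.Quotient.mk I
  let t' : ι → σ → A := fun i l =>
    ⟨t i l, hS (Or.inl (Or.inl (Or.inl (Or.inl (Or.inl ⟨(i, l), rfl⟩)))))⟩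
  let G' : ∀ e : Fin n, Matrix (expo σ e) (ι × expo σ e) A :=
    fun e a b => ⟨G e a b, hS (Or.inl (Or.inr ⟨⟨e, a, b⟩, rfl⟩))⟩
  let lam' : expo σ D → A := fun v => ⟨lam (monomial (v : σ →₀ ℕ) 1), hS (Or.inr ⟨v, rfl⟩)⟩
  let cinv : A := ⟨(lam f)⁻¹, hS (Or.inl (Or.inl (Or.inl (Or.inr rfl))))⟩
  let finv : A := ⟨((P.factorial : ℕ) : K)⁻¹, hS (Or.inl (Or.inl (Or.inr rfl)))⟩
  obtain ⟨f', hf'⟩ : f ∈ Set.range (map ψ) := by
    rw [mem_range_map_iff_coeffs_subset]
    intro x hx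
    exact ⟨⟨x, hS (Or.inl (Or.inl (Or.inl (Or.inl (Or.inr hx)))))⟩, rfl⟩
  have hf'h : f'.IsHomogeneous D := IsHomogeneous.of_map hψ (hf' ▸ hf)
  have hf'V : ∀ i, f' ∈ V (j i) (t' i) (T * (μ i + M + 1)) := by
    intro i
    apply mem_V_of_map ψ hψ
    rw [hf']
    exact hV i
  let B : ∀ e : Fin n, Matrix (expo σ e) (expo σ e) A := fun e => 1 - G' e * condM j t' μ e
  have hB : ∀ {S : Type _} [CommRing S] (χ : A →+* S) (e : Fin n), (B e).map χ
      = 1 - (G' e).map χ * condM j (fun i l => χ (t' i l)) μ e := by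
    intro S _ χ e
    rw [← condM_map, ← Matrix.map_mul, ← Matrix.map_one χ (map_zero χ) (map_one χ),
      ← Matrix.map_sub _ (map_sub χ)]
  let Q : Ideal (MvPolynomial σ A) := Ideal.span (Set.range
    (fun x : Σ e : Fin n, expo σ e => poly x.1 (fun v => B x.1 v x.2)))
  have hQ1 : Q.map (map ψ) ≤ L := by
    rw [Ideal.map_le_iff_le_comap, Ideal.span_le]
    rintro _ ⟨⟨e, x⟩, rfl⟩
    show map ψ _ ∈ L
    rw [map_poly]
    refine mem_low e.2 (poly_homog _ _) (Ideal.mem_iInf.2 ((condM_mulVec_eq_zero j t μ e _).1 ?_))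
    have h1 : condM j t μ e * (B e).map ψ = 0 := by
      rw [hB, Matrix.mul_sub, Matrix.mul_one, ← Matrix.mul_assoc]
      exact sub_eq_zero.2 (hG e).symm
    funext r
    exact congrFun (congrFun h1 r) x
  have hQ2 : ∀ (χ : A →+* A ⧸ I),
      low (⨅ i, V (j i) (fun l => χ (t' i l)) (μ i)) n ≤ Q.map (map χ) := by
    intro χ
    rw [low, Ideal.span_le]
    rintro g ⟨⟨e, he, hg⟩, hgJ⟩
    have h1 := (condM_mulVec_eq_zero j (fun i l => χ (t' i l)) μ e
      (fun v => coeff (v : σ →₀ ℕ) g)).2 (by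
        rw [poly_coeff e g hg]
        exact Ideal.mem_iInf.1 hgJ)
    have h2 : ((B ⟨e, he⟩).map χ).mulVec (fun v : expo σ e => coeff (v : σ →₀ ℕ) g)
        = fun v : expo σ e => coeff (v : σ →₀ ℕ) g := by
      rw [hB, Matrix.sub_mulVec, Matrix.one_mulVec, ← Matrix.mulVec_mulVec, h1,
        Matrix.mulVec_zero, sub_zero]
    rw [SetLike.mem_coe, ← poly_coeff e g hg, ← h2, poly_mulVec]
    refine Ideal.sum_mem _ fun x _ => Ideal.mul_mem_left _ _ ?_
    have h3 := Ideal.mem_map_of_mem (map χ) (I := Q) (Ideal.subset_span ⟨⟨⟨e, he⟩, x⟩, rfl⟩)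
    rw [map_poly] at h3
    exact h3
  let Λ : MvPolynomial σ A → A := fun y => ∑ v : expo σ D, lam' v * coeff (v : σ →₀ ℕ) y
  have hΛ : ∀ y, ψ (Λ y) = lam (homogeneousComponent D (map ψ y)) := by
    intro y
    rw [lin_component, map_sum]
    refine Finset.sum_congr rfl fun v _ => ?_
    rw [map_mul, coeff_map]
    rfl
  have hΛ1 : Λ f' * cinv = 1 := by
    apply hψ
    rw [map_mul, hΛ, hf', homogeneousComponent_of_mem hf, if_pos rfl, map_one]
    exact mul_inv_cancel₀ hl1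
  have hΛ2 : ∀ y ∈ Q ^ T, Λ y = 0 := by
    intro y hy
    apply hψ
    rw [hΛ, map_zero]
    apply hl2
    have h1 := Ideal.mem_map_of_mem (map ψ) hy
    rw [Ideal.map_pow] at h1
    exact low_pow_component _ n T D (Ideal.pow_right_mono hQ1 T h1)
  obtain ⟨p, hp⟩ := CharP.exists (A ⧸ I)
  have hpp : p.Prime := CharP.char_is_prime (A ⧸ I) p
  haveI : Fact p.Prime := ⟨hpp⟩
  haveI : PerfectRing (A ⧸ I) p := PerfectField.toPerfectRing p
  have hPp : P < p := by
    by_contra hle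
    have h1 : p ∣ P.factorial := (hpp.dvd_factorial).2 (by omega)
    have h2 : ((P.factorial : ℕ) : A) * finv = 1 := by
      apply hψ
      rw [map_mul, map_natCast, map_one]
      exact mul_inv_cancel₀ (Nat.cast_ne_zero.2 (Nat.factorial_ne_zero P))
    have h3 := congrArg φ h2
    rw [map_mul, map_natCast, map_one, (CharP.cast_eq_zero_iff (A ⧸ I) p _).2 h1, zero_mul] at h3
    exact zero_ne_one h3
  have hmain := cont_fin p j (fun i l => φ (t' i l)) (fun i => by
      have : t' i (j i) = 0 := Subtype.ext (ht i)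
      simp only [this, map_zero]) μ M hM T D b hT hD (fun i => by
      have := Finset.single_le_sum (f := μ) (fun _ _ => Nat.zero_le _) (Finset.mem_univ i)
      exact Nat.mul_le_mul_left _ (by omega)) hPp (map φ f') (hf'h.map φ)
    (fun i => map_mem_V φ (hf'V i))
  let χ : A →+* A ⧸ I := (frobenius (A ⧸ I) p).comp φ
  have hχ : Function.Surjective χ :=
    (surjective_frobenius (A ⧸ I) p).comp Ideal.Quotient.mk_surjective
  rw [map_map] at hmain
  have h1 := Ideal.pow_right_mono (hQ2 χ) T hmain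
  rw [← Ideal.map_pow, Ideal.mem_map_iff_of_surjective _ (map_surjective χ hχ)] at h1
  obtain ⟨y, hy, hy'⟩ := h1
  have h2 : χ (Λ y) = χ (Λ f') := by
    rw [map_sum, map_sum]
    refine Finset.sum_congr rfl fun v _ => ?_
    rw [map_mul, map_mul, ← coeff_map χ y, ← coeff_map χ f', hy']
  have h3 := congrArg χ hΛ1
  rw [map_mul, ← h2, hΛ2 y hy, map_zero, zero_mul, map_one] at h3
  exact zero_ne_one h3

end Transfer

section Final

variable {K : Type*} [Field K] [CharZero K]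

theorem containment_aux {ι : Type*} [Finite ι] [Nonempty ι] (N : ℕ) (hN : 2 ≤ N)
    (p : ι → Fin (N + 1) → K) (hp : ∀ i, p i ≠ 0) (μ : ι → ℕ) (T : ℕ) (hT : 1 ≤ T) :
    (⨅ i, RingHom.ker (ev (p i)) ^ (T * (μ i + N - 1)))
      ≤ idealOfVars (Fin (N + 1)) K ^ T * (⨅ i, RingHom.ker (ev (p i)) ^ μ i) ^ T := by
  have := Fintype.ofFinite ι
  choose j hj using fun i => Function.ne_iff.1 (hp i)
  have hk : ∀ i n, RingHom.ker (ev (p i)) ^ n = V (j i) (tt (p i) (j i)) n :=
    fun i n => ker_pow (p i) (j i) (hj i) n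
  simp only [hk]
  obtain ⟨M, rfl⟩ : ∃ M, N = M + 2 := ⟨N - 2, by omega⟩
  intro F hF
  rw [← sum_homogeneousComponent F]
  refine Ideal.sum_mem _ fun D _ => ?_
  have hf := homogeneousComponent_isHomogeneous D F
  have hV : ∀ i, homogeneousComponent D F ∈ V (j i) (tt (p i) (j i)) (T * (μ i + M + 1)) :=
    fun i => component_mem_V (Ideal.mem_iInf.1 hF i) D
  by_cases h0 : homogeneousComponent D F = 0
  · rw [h0]
    exact Ideal.zero_mem _
  obtain ⟨i0⟩ : Nonempty ι := inferInstance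
  have hD : T ≤ D := by
    have h1 := le_of_mem_V (tt_self _ _) h0 hf (hV i0)
    have h2 : T * 1 ≤ T * (μ i0 + M + 1) := Nat.mul_le_mul_left _ (by omega)
    omega
  exact low_pow_mem _ (D / T) T D ((Nat.le_div_iff_mul_le hT).2 (by omega)) (Nat.mul_div_le D T)
    (cont j (fun i => tt (p i) (j i)) (fun i => tt_self _ _) μ M (by rw [Fintype.card_fin]) T D hT
      hD _ hf hV) hf

/-- the containment for fat points in characteristic zero -/
theorem containment {ι : Type*} [Finite ι] (N : ℕ) (hN : 2 ≤ N)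
    (p : ι → Fin (N + 1) → K) (hp : ∀ i, p i ≠ 0) (μ ν : ι → ℕ) (hμ : ∃ i, μ i ≠ 0)
    (T : ℕ) (hT : 1 ≤ T) (hν : ∀ i, μ i ≠ 0 → T * (μ i + N - 1) ≤ ν i) :
    (⨅ i, RingHom.ker (ev (p i)) ^ ν i)
      ≤ idealOfVars (Fin (N + 1)) K ^ T * (⨅ i, RingHom.ker (ev (p i)) ^ μ i) ^ T := by
  obtain ⟨i0, hi0⟩ := hμ
  have : Nonempty {i // μ i ≠ 0} := ⟨⟨i0, hi0⟩⟩
  refine le_trans ?_ ((containment_aux (ι := {i // μ i ≠ 0}) N hN (fun i => p i) (fun i => hp i)
    (fun i => μ i) T hT).trans ?_)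
  · exact le_iInf fun i => (iInf_le _ i.1).trans (Ideal.pow_le_pow_right (hν i.1 i.2))
  · refine Ideal.mul_mono_right (Ideal.pow_right_mono (le_iInf fun i => ?_) T)
    by_cases h : μ i = 0
    · rw [h, pow_zero, Ideal.one_eq_top]
      exact le_top
    · exact iInf_le_of_le ⟨i, h⟩ le_rfl

end Final

end Pool.Agent.H.MP_4fee6f_ag
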